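import Pool.Agent.H19.SYA.Defs

/-!
Symplectic torus actions on affine four-space (MP_51eb24_ag): targets of the board
`sya_modules`, part B (expansions, minimal pairs, the element `E`, end of the proof).
-/

set_option autoImplicit false

namespace Pool.Agent.H19.SYA

open MvPolynomial Pool.Agent.H2.ST Pool.Agent.H15.TG

/-- the root `ρ_J = F / q^N` of `q`, modulo `p ^ J` -/
structure Rh {k : Type} [Field k] (W : ℤ → Submodule k (Pol k 2)) (p q : Pol k 2) (β : ℤ)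
    {L : Type} [Field L] [Algebra k L] (Θ : Pol k 2 →ₐ[k] L) (v : Fin 3 → L) (w m J N : ℕ)
    (F : Pol k 2) : Prop where
  hF : F ∈ W (w + N * β)
  tF : Θ F = v 0 * Θ q ^ N
  dv : p ^ J ∣ F ^ m - q ^ (N * m + 1)

/-! ### Pairs -/

/-- independence of `p, q, H, S` -/
def T_PAI : Prop := ∀ (k : Type) [Field k] [IsAlgClosed k] [CharZero k]
  (W : ℤ → Submodule k (Pol k 2)) (H : Pol k 2) (y : Fin 2 ⊕ Fin 2 → Pol k 2) (w : Fin 2 → ℤ)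
  (p q S : Pol k 2) (α β : ℤ) (k1 l1 : ℕ), Hy W H y w → Pr W H p q S α β k1 l1 →
  AlgebraicIndependent k ![p, q, H, S]

/-- pairs from two primes: denominators `g 0 * g 1` -/
def T_PRQ : Prop := ∀ (k : Type) [Field k] [IsAlgClosed k] [CharZero k]
  (W : ℤ → Submodule k (Pol k 2)) (H : Pol k 2) (y : Fin 2 ⊕ Fin 2 → Pol k 2) (w : Fin 2 → ℤ)
  (K : Subalgebra k (Pol k 2)) (g : Fin 2 → Pol k 2) (e ω : Fin 2 → ℕ) (l M : ℕ) (r : ℤ)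
  (S : Pol k 2), Hy W H y w → CS W K 0 g e ω l → S ∈ W r → br (g 0) S = 0 →
  br (g 1) S = (g 0 * g 1) ^ M → Pr W H (g 0) (g 1) S (ω 0) (ω 1) M M

/-- pairs from two primes: denominators `g 0` -/
def T_PPX : Prop := ∀ (k : Type) [Field k] [IsAlgClosed k] [CharZero k]
  (W : ℤ → Submodule k (Pol k 2)) (H : Pol k 2) (y : Fin 2 ⊕ Fin 2 → Pol k 2) (w : Fin 2 → ℤ)
  (K : Subalgebra k (Pol k 2)) (g : Fin 2 → Pol k 2) (e ω : Fin 2 → ℕ) (l M : ℕ) (r : ℤ)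
  (S : Pol k 2), Hy W H y w → CS W K 0 g e ω l → S ∈ W r → br (g 0) S = 0 →
  br (g 1) S = g 0 ^ M → PP W H (g 0) (g 1) S (ω 0) (ω 1) M

/-- exchanging the two primes -/
def T_SWP : Prop := ∀ (k : Type) [Field k] [IsAlgClosed k] [CharZero k]
  (W : ℤ → Submodule k (Pol k 2)) (K : Subalgebra k (Pol k 2)) (g : Fin 2 → Pol k 2)
  (e ω : Fin 2 → ℕ) (l : ℕ), CS W K 0 g e ω l →
  CS W K 0 ![g 1, g 0] ![e 1, e 0] ![ω 1, ω 0] l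

/-! ### Expansions -/

/-- roots of `q` -/
def T_RHO : Prop := ∀ (k : Type) [Field k] [IsAlgClosed k] [CharZero k]
  (W : ℤ → Submodule k (Pol k 2)) (H p q : Pol k 2) (α β : ℤ) (L : Type) [Field L] [Algebra k L]
  (Θ : Pol k 2 →ₐ[k] L) (v : Fin 3 → L) (w m : ℕ), PGr W → Cht W H p q α β Θ v w m →
  (∃ (N : ℕ) (F : Pol k 2), Rh W p q β Θ v w m 1 N F) ∧
  ∀ (J N : ℕ) (F : Pol k 2), 1 ≤ J → Rh W p q β Θ v w m J N F → ∀ J' : ℕ, J ≤ J' →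
    ∃ (N' : ℕ) (F' : Pol k 2), Rh W p q β Θ v w m J' N' F' ∧
      p ^ J ∣ F' * q ^ N - F * q ^ N'

/-- expansion of `S` up to order `k1 + 1` -/
def T_EXA : Prop := ∀ (k : Type) [Field k] [IsAlgClosed k] [CharZero k]
  (W : ℤ → Submodule k (Pol k 2)) (H : Pol k 2) (y : Fin 2 ⊕ Fin 2 → Pol k 2) (wy : Fin 2 → ℤ)
  (p q S : Pol k 2) (α β : ℤ) (k1 l1 : ℕ) (L : Type) [Field L] [Algebra k L]
  (Θ : Pol k 2 →ₐ[k] L) (v : Fin 3 → L) (w m J N0 : ℕ) (F0 : Pol k 2), Hy W H y wy →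
  Pr W H p q S α β k1 l1 → Cht W H p q α β Θ v w m → 2 * k1 + 2 ≤ J →
  Rh W p q β Θ v w m J N0 F0 →
  ∃ (K1 : ℕ) (c : ℕ → k) (κ : k) (N1 : ℕ) (Y : Pol k 2), (K1 = 0 ∨ c K1 ≠ 0) ∧ w * K1 ≤ k1 ∧
    (∀ K, K ≤ K1 → N0 * (α.toNat * K) ≤ N1) ∧
    q ^ (N1 + 1) * S = ∑ K ∈ Finset.Icc 1 K1,
        C (c K) * p ^ (k1 - w * K) * F0 ^ (α.toNat * K) *
          q ^ (l1 + N1 - N0 * (α.toNat * K)) +
      C (1 / (β : k)) * p ^ k1 * q ^ (l1 + N1) * (H + C κ) + p ^ (k1 + 1) * Y ∧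
    Θ (br p Y) = algebraMap k L (-((α : k) / (β : k))) * Θ q ^ (l1 + N1) ∧
    p ∣ br q Y

/-- existence of the expansion data -/
def T_EXX : Prop := ∀ (k : Type) [Field k] [IsAlgClosed k] [CharZero k]
  (W : ℤ → Submodule k (Pol k 2)) (H : Pol k 2) (y : Fin 2 ⊕ Fin 2 → Pol k 2) (wy : Fin 2 → ℤ)
  (p q S : Pol k 2) (α β : ℤ) (k1 l1 : ℕ) (L : Type) [Field L] [Algebra k L]
  (Θ : Pol k 2 →ₐ[k] L) (v : Fin 3 → L) (w m : ℕ), Hy W H y wy →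
  Pr W H p q S α β k1 l1 → Cht W H p q α β Θ v w m →
  ∃ (K1 : ℕ) (c : ℕ → k) (κ : k) (ζ : L), Ex W H p q S α β k1 l1 Θ v w m K1 c κ ζ

/-- the conjugate expansions are different -/
def T_SEP : Prop := ∀ (k : Type) [Field k] [IsAlgClosed k] [CharZero k]
  (W : ℤ → Submodule k (Pol k 2)) (H p q S : Pol k 2) (α β : ℤ) (k1 l1 : ℕ) (L : Type)
  [Field L] [Algebra k L] (Θ : Pol k 2 →ₐ[k] L) (v : Fin 3 → L) (w m K1 : ℕ) (c : ℕ → k)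
  (κ : k) (ζ : L), PGr W → Pr W H p q S α β k1 l1 → Cht W H p q α β Θ v w m →
  Ex W H p q S α β k1 l1 Θ v w m K1 c κ ζ →
  ∀ ε : k, ε ^ m = 1 → ε ≠ 1 → ∃ K : ℕ, 1 ≤ K ∧ K ≤ K1 ∧ c K ≠ 0 ∧ ε ^ (α.toNat * K) ≠ 1

/-- leading coefficients of polynomials with small values on separated discs -/
def T_VI : Prop := ∀ (F : Type) [Field F] (O : Subring F) (ϖ : F), ϖ ∈ O → ϖ ≠ 0 →
  ∀ (n : ℕ) (c : Fin n → F) (V : Fin n → Fin n → ℕ), 1 ≤ n → (∀ i j, V i j = V j i) →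
  (∀ i j, i ≠ j → c i ≠ c j ∧ (c i - c j)⁻¹ * ϖ ^ (-(V i j : ℤ)) ∈ O) →
  ∀ (f : Polynomial F) (D s : ℕ), f.natDegree ≤ D →
  (∀ i j, (f.comp (Polynomial.C (c i) + Polynomial.C ϖ * Polynomial.X)).coeff j ∈ O) →
  (∀ i, s ≤ ∑ j ∈ Finset.univ.erase i, V i j) →
  f.coeff D ^ n * ϖ ^ (-((D : ℤ) * ((s : ℤ) - 1))) ∈ O

/-- the values of `S`-polynomials: leading coefficient -/
def T_VIP : Prop := ∀ (k : Type) [Field k] [IsAlgClosed k] [CharZero k]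
  (W : ℤ → Submodule k (Pol k 2)) (H : Pol k 2) (y : Fin 2 ⊕ Fin 2 → Pol k 2) (wy : Fin 2 → ℤ)
  (p q S : Pol k 2) (α β : ℤ) (k1 l1 : ℕ) (L : Type) [Field L] [Algebra k L]
  (Θ : Pol k 2 →ₐ[k] L) (v : Fin 3 → L) (w m K1 : ℕ) (c : ℕ → k) (κ : k) (ζ : L),
  Hy W H y wy → Pr W H p q S α β k1 l1 → Cht W H p q α β Θ v w m →
  Ex W H p q S α β k1 l1 Θ v w m K1 c κ ζ → 2 ≤ m →
  ∀ (F : Pol k 2) (N D : ℕ) (Q : ℕ → MvPolynomial (Fin 3) k),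
  (p * q) ^ N * F = ∑ i ∈ Finset.range (D + 1), aeval ![p, q, H] (Q i) * S ^ i →
  ∃ j : ℕ, X 0 ^ j ∣ Q D ∧ 1 ≤ K1 ∧
    (D : ℤ) * (w * (((m : ℤ) - Nat.gcd m K1) * K1 + Nat.gcd m K1 - 1) - 1) ≤
      m * ((j : ℤ) - N + k1 * D)

/-- not both `m`-invariants are at least two -/
def T_MMP : Prop := ∀ (k : Type) [Field k] [IsAlgClosed k] [CharZero k]
  (W : ℤ → Submodule k (Pol k 2)) (H : Pol k 2) (y : Fin 2 ⊕ Fin 2 → Pol k 2) (wy : Fin 2 → ℤ)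
  (p q S : Pol k 2) (α β : ℤ) (k1 l1 : ℕ) (L L' : Type) [Field L] [Algebra k L] [Field L']
  [Algebra k L'] (Θ : Pol k 2 →ₐ[k] L) (v : Fin 3 → L) (w m : ℕ) (Θ' : Pol k 2 →ₐ[k] L')
  (v' : Fin 3 → L') (w' m' : ℕ), Hy W H y wy → Pr W H p q S α β k1 l1 →
  Cht W H p q α β Θ v w m → Cht W H q p β α Θ' v' w' m' → 2 ≤ m → 2 ≤ m' → False

/-- a homogeneous element of negative weight -/
def T_NGW : Prop := ∀ (k : Type) [Field k] [CharZero k]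
  (W : ℤ → Submodule k (Pol k 2)) (H : Pol k 2) (y : Fin 2 ⊕ Fin 2 → Pol k 2) (w : Fin 2 → ℤ),
  Hy W H y w → ∃ (n : ℤ) (F : Pol k 2), n < 0 ∧ F ∈ W n ∧ F ≠ 0

/-- relation for the exchanged pair -/
def T_SWQ : Prop := ∀ (k : Type) [Field k] [IsAlgClosed k] [CharZero k]
  (W : ℤ → Submodule k (Pol k 2)) (H : Pol k 2) (y : Fin 2 ⊕ Fin 2 → Pol k 2) (w : Fin 2 → ℤ)
  (p q S : Pol k 2) (α β : ℤ) (k1 l1 : ℕ), Hy W H y w → Pr W H p q S α β k1 l1 → Prime q →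
  Pr W H q p (C (1 / (α : k)) * (p ^ k1 * q ^ l1 * H - C (β : k) * q * S)) β α l1 (k1 + 1)

/-- the basic inequality -/
def T_INE : Prop := ∀ (k : Type) [Field k] [IsAlgClosed k] [CharZero k]
  (W : ℤ → Submodule k (Pol k 2)) (H : Pol k 2) (y : Fin 2 ⊕ Fin 2 → Pol k 2) (wy : Fin 2 → ℤ)
  (p q S : Pol k 2) (α β : ℤ) (k1 : ℕ) (L : Type) [Field L] [Algebra k L]
  (Θ : Pol k 2 →ₐ[k] L) (v : Fin 3 → L) (w m K1 : ℕ) (c : ℕ → k) (κ : k) (ζ : L),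
  Hy W H y wy → PP W H p q S α β k1 → Cht W H p q α β Θ v w m →
  Ex W H p q S α β k1 0 Θ v w m K1 c κ ζ → 2 ≤ m → 1 ≤ K1 ∧
  α * (w * (((m : ℤ) - Nat.gcd m K1) * K1 + Nat.gcd m K1 - 1) - 1) < (m : ℤ) ^ 2 * w

/-! ### Minimal pairs -/

/-- existence of a pair with `p`-denominators -/
def T_PPE : Prop := ∀ (k : Type) [Field k] [IsAlgClosed k] [CharZero k]
  (W : ℤ → Submodule k (Pol k 2)) (H : Pol k 2) (y : Fin 2 ⊕ Fin 2 → Pol k 2) (w : Fin 2 → ℤ),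
  Hy W H y w → ∃ (p q S : Pol k 2) (α β : ℤ) (k1 : ℕ), PP W H p q S α β k1

/-- both `q` and `S` have locally nilpotent brackets -/
def T_PSN : Prop := ∀ (k : Type) [Field k] [IsAlgClosed k] [CharZero k]
  (W : ℤ → Submodule k (Pol k 2)) (H : Pol k 2) (y : Fin 2 ⊕ Fin 2 → Pol k 2) (w : Fin 2 → ℤ)
  (p q S : Pol k 2) (α β : ℤ) (k1 : ℕ), Hy W H y w → PP W H p q S α β k1 →
  LN S ∧ NC S ∧ 0 < k1 * α - β

/-- changing the pair -/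
def T_PCG : Prop := ∀ (k : Type) [Field k] [IsAlgClosed k] [CharZero k]
  (W : ℤ → Submodule k (Pol k 2)) (H : Pol k 2) (y : Fin 2 ⊕ Fin 2 → Pol k 2) (w : Fin 2 → ℤ)
  (p q S : Pol k 2) (α β : ℤ) (k1 : ℕ), Hy W H y w → PP W H p q S α β k1 →
  (¬ p ∣ S → PP W H p S (-q) α (k1 * α - β) k1) ∧
  ∀ (S' : Pol k 2) (c : k) (j : ℕ), 0 < k1 → S = p * S' + C c * q ^ j →
    (c = 0 ∨ (j : ℤ) * β = k1 * α - β) → PP W H p q S' α β (k1 - 1)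

/-- minimal pairs -/
def T_PPM : Prop := ∀ (k : Type) [Field k] [IsAlgClosed k] [CharZero k]
  (W : ℤ → Submodule k (Pol k 2)) (H : Pol k 2) (y : Fin 2 ⊕ Fin 2 → Pol k 2) (wy : Fin 2 → ℤ),
  Hy W H y wy → (∃ (p q S : Pol k 2) (α β : ℤ) (k1 : ℕ), PP W H p q S α β k1) →
  ∃ (p q S : Pol k 2) (α β : ℤ) (k1 : ℕ) (L : Type) (_ : Field L) (_ : Algebra k L)
    (Θ : Pol k 2 →ₐ[k] L) (v : Fin 3 → L) (w m n : ℕ) (c : k),
    Mi W H p q S α β k1 Θ v w m n c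

/-- arithmetic -/
def T_ARI : Prop := ∀ (α : ℤ) (w m n K1 : ℕ), 0 < α → 0 < w → 0 < m → m < n → ¬ m ∣ n →
  IsCoprime α (m : ℤ) → 1 ≤ K1 → (n : ℤ) = α * K1 - m →
  α * (w * (((m : ℤ) - Nat.gcd m K1) * K1 + Nat.gcd m K1 - 1) - 1) < (m : ℤ) ^ 2 * w →
  K1 = 1 ∧ 2 ≤ m ∧ w * (((m : ℤ) - 1) * n - m) < α

/-- in a minimal pair `k1 = w` -/
def T_K1E : Prop := ∀ (k : Type) [Field k] [IsAlgClosed k] [CharZero k]
  (W : ℤ → Submodule k (Pol k 2)) (H : Pol k 2) (y : Fin 2 ⊕ Fin 2 → Pol k 2) (wy : Fin 2 → ℤ)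
  (p q S : Pol k 2) (α β : ℤ) (k1 : ℕ) (L : Type) [Field L] [Algebra k L]
  (Θ : Pol k 2 →ₐ[k] L) (v : Fin 3 → L) (w m n : ℕ) (c : k), Hy W H y wy →
  Mi W H p q S α β k1 Θ v w m n c →
  k1 = w ∧ α = n + m ∧ Nat.Coprime m n ∧ 2 ≤ m ∧ w * (((m : ℤ) - 1) * n - m) < α

/-! ### The element `E` -/

/-- the element `E` -/
def T_EEE : Prop := ∀ (k : Type) [Field k] [IsAlgClosed k] [CharZero k]
  (W : ℤ → Submodule k (Pol k 2)) (H : Pol k 2) (y : Fin 2 ⊕ Fin 2 → Pol k 2) (wy : Fin 2 → ℤ)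
  (p q S : Pol k 2) (α β : ℤ) (L : Type) [Field L] [Algebra k L]
  (Θ : Pol k 2 →ₐ[k] L) (v : Fin 3 → L) (w m n : ℕ) (c : k), Hy W H y wy →
  Mi W H p q S α β w Θ v w m n c → α = n + m →
  ∃ (E : Pol k 2) (κ : k) (j : ℕ), j + m = (m - 1) * n ∧ E ∈ W (w * j) ∧
    S ^ m - C (c ^ m) * q ^ n = p ^ w * E ∧
    Θ E = v 0 ^ j * (algebraMap k L (c ^ (m - 1) / (w : k)) * v 1 + algebraMap k L κ)

/-- Liouville derivation of weight zero -/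
def T_LIO : Prop := ∀ (k : Type) [Field k] [CharZero k]
  (W : ℤ → Submodule k (Pol k 2)) (H : Pol k 2) (y : Fin 2 ⊕ Fin 2 → Pol k 2) (wy : Fin 2 → ℤ),
  Hy W H y wy → ∃ D : Derivation k (Pol k 2) (Pol k 2), (∀ n, ∀ f ∈ W n, D f ∈ W n) ∧
    (∀ f g, D (br f g) = br (D f) g + br f (D g) + br f g) ∧ D H = -H

/-- the potential -/
def T_POT : Prop := ∀ (k : Type) [Field k] [IsAlgClosed k] [CharZero k]
  (W : ℤ → Submodule k (Pol k 2)) (H : Pol k 2) (y : Fin 2 ⊕ Fin 2 → Pol k 2) (wy : Fin 2 → ℤ)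
  (p q S : Pol k 2) (α β : ℤ) (k1 : ℕ) (D : Derivation k (Pol k 2) (Pol k 2)), Hy W H y wy →
  PP W H p q S α β k1 → (∀ n, ∀ f ∈ W n, D f ∈ W n) →
  (∀ f g, D (br f g) = br (D f) g + br f (D g) + br f g) → D H = -H →
  ∃ (N : ℕ) (f : Pol k 2), f ∈ W (N * α) ∧ ∀ F : Pol k 2,
    p ^ (N + k1 + 1) * D F =
      -(p ^ N * (C (1 / (α : k)) * (p ^ k1 * H - C (β : k) * q * S) * br p F +
        p * S * br q F)) + p ^ k1 * (p * br f F - C (N : k) * f * br p F)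

/-- the constant vanishes -/
def T_KPZ : Prop := ∀ (k : Type) [Field k] [IsAlgClosed k] [CharZero k]
  (W : ℤ → Submodule k (Pol k 2)) (H : Pol k 2) (y : Fin 2 ⊕ Fin 2 → Pol k 2) (wy : Fin 2 → ℤ)
  (p q S : Pol k 2) (α β : ℤ) (L : Type) [Field L] [Algebra k L]
  (Θ : Pol k 2 →ₐ[k] L) (v : Fin 3 → L) (w m n : ℕ) (c : k) (E : Pol k 2) (κ : k) (j : ℕ),
  Hy W H y wy → Mi W H p q S α β w Θ v w m n c → α = n + m → j + m = (m - 1) * n →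
  S ^ m - C (c ^ m) * q ^ n = p ^ w * E →
  Θ E = v 0 ^ j * (algebraMap k L (c ^ (m - 1) / (w : k)) * v 1 + algebraMap k L κ) → κ = 0

/-! ### The end -/

/-- `p` and `q` have no common zero on the attracting plane -/
def T_AGP : Prop := ∀ (k : Type) [Field k] [IsAlgClosed k] [CharZero k]
  (W : ℤ → Submodule k (Pol k 2)) (H : Pol k 2) (y : Fin 2 ⊕ Fin 2 → Pol k 2) (wy : Fin 2 → ℤ)
  (p q S : Pol k 2) (α β : ℤ) (k1 : ℕ) (L : Type) [Field L] [Algebra k L]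
  (Θ : Pol k 2 →ₐ[k] L) (v : Fin 3 → L) (w m : ℕ)
  (φ φ' : Pol k 2 →ₐ[k] MvPolynomial (Fin 2) k), Hy W H y wy → Xp W wy φ →
  Xp (fun n => W (-n)) wy φ' → PP W H p q S α β k1 → Cht W H p q α β Θ v w m →
  ∀ z : Fin 2 → k, z ≠ 0 → ¬ (eval z (φ p) = 0 ∧ eval z (φ q) = 0)

/-- `p` divides `E` on the attracting plane, and the degree of `E` is too small -/
def T_EZ : Prop := ∀ (k : Type) [Field k] [IsAlgClosed k] [CharZero k]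
  (W : ℤ → Submodule k (Pol k 2)) (H : Pol k 2) (y : Fin 2 ⊕ Fin 2 → Pol k 2) (wy : Fin 2 → ℤ)
  (p q S : Pol k 2) (α β : ℤ) (k1 : ℕ) (L : Type) [Field L] [Algebra k L]
  (Θ : Pol k 2 →ₐ[k] L) (v : Fin 3 → L) (w m : ℕ)
  (φ : Pol k 2 →ₐ[k] MvPolynomial (Fin 2) k) (E : Pol k 2) (c : k) (j : ℕ), Hy W H y wy →
  Xp W wy φ → PP W H p q S α β k1 → Cht W H p q α β Θ v w m → E ∈ W (w * j) →
  (w * j : ℤ) < α → Θ E = v 0 ^ j * (algebraMap k L c * v 1) →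
  (∀ z : Fin 2 → k, z ≠ 0 → ¬ (eval z (φ p) = 0 ∧ eval z (φ q) = 0)) → φ E = 0

/-- two generators of a localized polynomial ring cannot be powers -/
def T_CUS : Prop := ∀ (k : Type) [Field k] [IsAlgClosed k] [CharZero k] (w : Fin 2 → ℤ)
  (P Q S : MvPolynomial (Fin 2) k) (α β : ℤ) (m n : ℕ) (c : k), (∀ i, 0 < w i) → 0 < α →
  0 < β → IsWeightedHomogeneous w P α → IsWeightedHomogeneous w Q β → 2 ≤ m → 2 ≤ n →
  Nat.Coprime m n → c ≠ 0 → S ^ m = C (c ^ m) * Q ^ n →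
  (∀ z : Fin 2 → k, z ≠ 0 → ¬ (eval z P = 0 ∧ eval z Q = 0)) →
  (∀ G : MvPolynomial (Fin 2) k, ∃ (N : ℕ) (R : MvPolynomial (Fin 3) k),
    P ^ N * G = aeval ![P, Q, S] R) → False

/-- there is no such grading -/
def T_NOH : Prop := ∀ (k : Type) [Field k] [IsAlgClosed k] [CharZero k]
  (W : ℤ → Submodule k (Pol k 2)) (H : Pol k 2) (y : Fin 2 ⊕ Fin 2 → Pol k 2) (w : Fin 2 → ℤ),
  ¬ Hy W H y w

end Pool.Agent.H19.SYA
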