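import Pool.Agent.H19.SYA.TB

/-!
Symplectic torus actions on affine four-space (MP_51eb24_ag): the element `E` vanishes on the
attracting plane.
-/

set_option autoImplicit false

namespace Pool.Agent.H19.SYA

open MvPolynomial Pool.Agent.H2.ST Pool.Agent.H15.TG

/-- weighted homogeneous polynomials of negative weight vanish -/
theorem ez_neg {k : Type} [Field k] {w : Fin 2 → ℤ} (hw : ∀ i, 0 < w i)
    {G : MvPolynomial (Fin 2) k} {n : ℤ} (hn : n < 0) (hG : IsWeightedHomogeneous w G n) :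
    G = 0 := by
  ext d
  rw [coeff_zero]
  by_contra hcon
  have h1 := hG hcon
  rw [Finsupp.weight_apply, Finsupp.sum] at h1
  have h2 : 0 ≤ ∑ a ∈ d.support, d a • w a :=
    Finset.sum_nonneg fun a _ => by
      rw [nsmul_eq_mul]
      exact mul_nonneg (Int.natCast_nonneg _) (hw a).le
  omega

/-- a weighted homogeneous polynomial divides only those of larger weight -/
theorem ez_dvd {k : Type} [Field k] {w : Fin 2 → ℤ} (hw : ∀ i, 0 < w i)
    {P E : MvPolynomial (Fin 2) k} {α n : ℤ} (hn : n < α) (hP : IsWeightedHomogeneous w P α)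
    (hE : IsWeightedHomogeneous w E n) (hd : P ∣ E) : E = 0 := by
  classical
  obtain ⟨G, rfl⟩ := hd
  let _ := MvPolynomial.weightedGradedAlgebra k w
  have hP' : P ∈ weightedHomogeneousSubmodule k w α := by
    rw [mem_weightedHomogeneousSubmodule]; exact hP
  have hE' : P * G ∈ weightedHomogeneousSubmodule k w n := by
    rw [mem_weightedHomogeneousSubmodule]; exact hE
  have h1 := DirectSum.coe_decompose_mul_add_of_left_mem (weightedHomogeneousSubmodule k w)
    (i := α) (j := n - α) (a := P) (b := G) hP'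
  rw [add_sub_cancel, DirectSum.decompose_of_mem_same _ hE'] at h1
  have h2 : ((DirectSum.decompose (weightedHomogeneousSubmodule k w) G (n - α) :
      weightedHomogeneousSubmodule k w (n - α)) : MvPolynomial (Fin 2) k) = 0 := by
    refine ez_neg hw (n := n - α) (by omega) ?_
    rw [← mem_weightedHomogeneousSubmodule]
    exact Subtype.coe_prop _
  rw [h1, h2, mul_zero]

/-- polynomials without common zeros different from the origin are relatively prime -/
theorem ez_rel {k : Type} [Field k] [IsAlgClosed k] {P Q : MvPolynomial (Fin 2) k}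
    (h : ∀ z : Fin 2 → k, z ≠ 0 → ¬ (eval z P = 0 ∧ eval z Q = 0)) : IsRelPrime P Q := by
  intro D hDP hDQ
  have hz : ∀ i : Fin 2, ∃ n : ℕ, D ∣ (X i : MvPolynomial (Fin 2) k) ^ n := by
    intro i
    have h1 : (X i : MvPolynomial (Fin 2) k) ∈ (Ideal.span {D}).radical := by
      rw [← vanishingIdeal_zeroLocus_eq_radical (K := k), mem_vanishingIdeal_iff]
      intro z hz
      rw [mem_zeroLocus_iff] at hz
      have h2 : aeval z D = 0 := hz D (Ideal.mem_span_singleton_self D)
      by_cases hz0 : z = 0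
      · rw [hz0, aeval_X]; rfl
      · exfalso
        refine h z hz0 ⟨?_, ?_⟩
        · obtain ⟨R, hR⟩ := hDP
          rw [← coe_aeval_eq_eval, RingHom.coe_coe, hR, map_mul, h2, zero_mul]
        · obtain ⟨R, hR⟩ := hDQ
          rw [← coe_aeval_eq_eval, RingHom.coe_coe, hR, map_mul, h2, zero_mul]
    obtain ⟨n, hn⟩ := h1
    exact ⟨n, Ideal.mem_span_singleton.1 hn⟩
  obtain ⟨n0, h0⟩ := hz 0
  obtain ⟨n1, h1⟩ := hz 1
  have hX0 : Prime (X 0 : MvPolynomial (Fin 2) k) := X_prime
  obtain ⟨i, _, hi⟩ := (dvd_prime_pow hX0 n0).1 h0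
  rcases Nat.eq_zero_or_pos i with hi0 | hi0
  · rw [hi0, pow_zero] at hi
    exact hi.symm.isUnit isUnit_one
  · exfalso
    have h2 : (X 0 : MvPolynomial (Fin 2) k) ∣ X 1 ^ n1 :=
      (dvd_pow_self _ hi0.ne').trans (hi.symm.dvd.trans h1)
    have h3 := hX0.dvd_of_dvd_pow h2
    rw [X_dvd_X] at h3
    exact absurd h3 (by decide)

/-- `E` vanishes on the attracting plane -/
theorem pf_EZ : T_EZ := by
  intro k _ _ _ W H y wy p q S α β k1 L _ _ Θ v w m φ E c j hy hφ hPP hch hE hlt htE hz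
  obtain ⟨N, _, F1, -, hF1⟩ := hch.inv 0
  have h1 : Θ (q ^ (N * j) * E - C c * H * F1 ^ j) = 0 := by
    have hC : Θ (C c) = algebraMap k L c := by
      rw [← MvPolynomial.algebraMap_eq]
      exact Θ.commutes c
    rw [map_sub, map_mul, map_mul, map_mul, map_pow, map_pow, htE, ← hF1, hch.tH, hC, pow_mul]
    ring
  rw [hch.ker] at h1
  obtain ⟨F2, hF2⟩ := h1
  have hH : φ H = 0 := hφ.zer H hy.H0 hy.Hc
  have h2 : φ p ∣ φ q ^ (N * j) * φ E := by
    refine ⟨φ F2, ?_⟩
    rw [← map_mul, ← hF2, map_sub, map_mul, map_mul, map_mul, map_pow, hH]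
    ring
  have h3 : φ p ∣ φ E := (ez_rel hz).pow_right.dvd_of_dvd_mul_left h2
  exact ez_dvd hy.wp hlt (hφ.wh _ _ hPP.hg) (hφ.wh _ _ hE) h3

end Pool.Agent.H19.SYA
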