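import Pool.Agent.H19.SYA.TA
import Pool.Agent.H19.SYA.TB

/-!
Symplectic torus actions on affine four-space (MP_51eb24_ag): end of the proof by contradiction.
-/

set_option autoImplicit false

namespace Pool.Agent.H19.SYA

open MvPolynomial Pool.Agent.H2.ST Pool.Agent.H15.TG

theorem pf_NOH (hXPM : T_XPM) (hPPE : T_PPE) (hPPM : T_PPM) (hK1E : T_K1E) (hEEE : T_EEE)
    (hKPZ : T_KPZ) (hAGP : T_AGP) (hEZ : T_EZ) (hCUS : T_CUS) : T_NOH := by
  intro k _ _ _ W H y wy hy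
  obtain ⟨φ, φ', hφ, hφ'⟩ := hXPM k W H y wy hy
  obtain ⟨p, q, S, α, β, k1, L, iL, iA, Θ, v, w, m, n, c, hM⟩ :=
    hPPM k W H y wy hy (hPPE k W H y wy hy)
  obtain ⟨h1, h2, h3, h4, h5⟩ := hK1E k W H y wy p q S α β k1 L Θ v w m n c hy hM
  subst h1
  obtain ⟨E, κ, j, h6, h7, h8, h9⟩ := hEEE k W H y wy p q S α β L Θ v k1 m n c hy hM h2
  have h10 : κ = 0 := hKPZ k W H y wy p q S α β L Θ v k1 m n c E κ j hy hM h2 h6 h8 h9
  subst h10
  have hz := hAGP k W H y wy p q S α β k1 L Θ v k1 m φ φ' hy hφ hφ' hM.toPP hM.ch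
  have hlt : (k1 * j : ℤ) < α := by
    have e1 : ((j : ℤ) + m) = ((m : ℤ) - 1) * n := by
      have := congrArg (fun x : ℕ => (x : ℤ)) h6
      push_cast [Nat.cast_sub (show 1 ≤ m by omega)] at this
      linarith
    have e2 : (j : ℤ) = ((m : ℤ) - 1) * n - m := by linarith
    rw [e2]; exact h5
  have hφE : φ E = 0 := by
    refine hEZ k W H y wy p q S α β k1 L Θ v k1 m φ E (c ^ (m - 1) / (k1 : k)) j hy hφ
      hM.toPP hM.ch h7 hlt ?_ hz
    rw [h9, map_zero, add_zero]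
  have hC : φ (C (c ^ m)) = C (c ^ m) := φ.commutes (c ^ m)
  have hS : φ S ^ m = C (c ^ m) * φ q ^ n := by
    have h13 : φ (S ^ m - C (c ^ m) * q ^ n) = φ S ^ m - C (c ^ m) * φ q ^ n := by
      rw [map_sub, map_mul, hC, map_pow φ S m, map_pow φ q n]
    rw [h8, map_mul, hφE, mul_zero] at h13
    exact sub_eq_zero.1 h13.symm
  refine hCUS k wy (φ p) (φ q) (φ S) α β m n c hy.wp hM.pa hM.pb (hφ.wh _ _ hM.hg)
    (hφ.wh _ _ hM.hf) h4 (lt_of_le_of_lt h4 hM.lt).le h3 hM.c0 hS hz ?_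
  intro G
  obtain ⟨F, rfl⟩ := hφ.sur G
  obtain ⟨N, P, hP⟩ := hM.ge1 F
  refine ⟨N, aeval ![X 0, X 1, 0, X 2] P, ?_⟩
  have h11 := congrArg φ hP
  rw [map_mul, map_pow] at h11
  rw [h11]
  have h12 : φ H = 0 := hφ.zer H hy.H0 hy.Hc
  change (φ : Pol k 2 →ₐ[k] _) (aeval ![p, q, H, S] P) =
    (aeval ![φ p, φ q, φ S]) (aeval ![X 0, X 1, 0, X 2] P)
  rw [← AlgHom.comp_apply, ← AlgHom.comp_apply]
  congr 1
  apply MvPolynomial.algHom_ext
  intro i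
  rw [AlgHom.comp_apply, AlgHom.comp_apply, aeval_X, aeval_X]
  fin_cases i
  · simp
  · simp
  · simpa using h12
  · simp

end Pool.Agent.H19.SYA
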