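import Pool.Agent.H19.SYA.Defs

/-!
Symplectic torus actions on affine four-space (MP_51eb24_ag): targets of the board
`sya_modules`, part A (planes, the algebra `C`, charts, primes of `C`, slices, point count).
-/

set_option autoImplicit false

namespace Pool.Agent.H19.SYA

open MvPolynomial Pool.Agent.H2.ST Pool.Agent.H15.TG

/-! ### The attracting plane -/

/-- restriction to the attracting plane -/
def T_XPL : Prop := ∀ (k : Type) [Field k] [CharZero k] (W : ℤ → Submodule k (Pol k 2))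
  (y : Fin 2 ⊕ Fin 2 → Pol k 2) (w : Fin 2 → ℤ), PGr W → Ada W y w → (∀ i, 0 < w i) →
  ∃ φ : Pol k 2 →ₐ[k] MvPolynomial (Fin 2) k, Xp W w φ

/-- points of the attracting plane are separated from the origin by positive weights -/
def T_XPZ : Prop := ∀ (k : Type) [Field k] (W : ℤ → Submodule k (Pol k 2)) (w : Fin 2 → ℤ)
  (φ : Pol k 2 →ₐ[k] MvPolynomial (Fin 2) k), Gr W → (∀ i, 0 < w i) → Xp W w φ →
  ∀ z : Fin 2 → k, z ≠ 0 → ∃ (n : ℤ) (F : Pol k 2), 0 < n ∧ F ∈ W n ∧ eval z (φ F) ≠ 0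

/-- restrictions to both planes -/
def T_XPM : Prop := ∀ (k : Type) [Field k] [IsAlgClosed k] [CharZero k]
  (W : ℤ → Submodule k (Pol k 2)) (H : Pol k 2) (y : Fin 2 ⊕ Fin 2 → Pol k 2) (w : Fin 2 → ℤ),
  Hy W H y w → ∃ φ φ' : Pol k 2 →ₐ[k] MvPolynomial (Fin 2) k, Xp W w φ ∧
    Xp (fun n => W (-n)) w φ'

/-! ### The algebra `C` -/

/-- top components of polynomials in `x_0, x_1` -/
def T_TPA : Prop := ∀ (k : Type) [Field k] [IsAlgClosed k] [CharZero k]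
  (W : ℤ → Submodule k (Pol k 2)) (H : Pol k 2) (y : Fin 2 ⊕ Fin 2 → Pol k 2) (w : Fin 2 → ℤ)
  (hy : Hy W H y w),
  (∀ f ∈ Algebra.adjoin k {(X (Sum.inl 0) : Pol k 2), X (Sum.inl 1)}, NC f →
    ∃ n : ℤ, 0 < n ∧ cmp hy.toGr f n ≠ 0 ∧ (∀ j, n < j → cmp hy.toGr f j = 0) ∧
      LN (cmp hy.toGr f n)) ∧
  ∀ f ∈ Algebra.adjoin k {(X (Sum.inl 0) : Pol k 2), X (Sum.inl 1)},
    ∀ g ∈ Algebra.adjoin k {(X (Sum.inl 0) : Pol k 2), X (Sum.inl 1)}, ∀ n m : ℤ,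
    (∀ j, n < j → cmp hy.toGr f j = 0) → (∀ j, m < j → cmp hy.toGr g j = 0) →
    br (cmp hy.toGr f n) (cmp hy.toGr g m) = 0

/-- two independent top components -/
def T_TPB : Prop := ∀ (k : Type) [Field k] [IsAlgClosed k] [CharZero k]
  (W : ℤ → Submodule k (Pol k 2)) (H : Pol k 2) (y : Fin 2 ⊕ Fin 2 → Pol k 2) (w : Fin 2 → ℤ),
  Hy W H y w → ∃ (p q : Pol k 2) (α β : ℤ), Cp W p q α β

/-- a local slice -/
def T_SL0 : Prop := ∀ (k : Type) [Field k] [IsAlgClosed k] [CharZero k]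
  (W : ℤ → Submodule k (Pol k 2)) (H : Pol k 2) (y : Fin 2 ⊕ Fin 2 → Pol k 2) (w : Fin 2 → ℤ)
  (p q : Pol k 2) (α β : ℤ), Hy W H y w → Cp W p q α β →
  ∃ (s : Pol k 2) (n : ℤ), Sl W p q s n

/-- three elements of the centralizer are dependent -/
def T_TR2 : Prop := ∀ (k : Type) [Field k] [IsAlgClosed k] [CharZero k]
  (W : ℤ → Submodule k (Pol k 2)) (H : Pol k 2) (y : Fin 2 ⊕ Fin 2 → Pol k 2) (w : Fin 2 → ℤ)
  (p q s : Pol k 2) (α β n : ℤ), Hy W H y w → Cp W p q α β → Sl W p q s n →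
  ∀ f : Fin 3 → Pol k 2, (∀ i, br p (f i) = 0 ∧ br q (f i) = 0) → ¬ AlgebraicIndependent k f

/-- generation by the centralizer, `H` and the slice, with denominators -/
def T_GN0 : Prop := ∀ (k : Type) [Field k] [IsAlgClosed k] [CharZero k]
  (W : ℤ → Submodule k (Pol k 2)) (H : Pol k 2) (y : Fin 2 ⊕ Fin 2 → Pol k 2) (w : Fin 2 → ℤ)
  (p q s : Pol k 2) (α β n : ℤ), Hy W H y w → Cp W p q α β → Sl W p q s n →
  ∀ F : Pol k 2, ∃ N : ℕ, (p * br q s) ^ N * F ∈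
    Algebra.adjoin k ({g : Pol k 2 | br p g = 0 ∧ br q g = 0} ∪ {H, s})

/-- existence of the maximal commutative subalgebra -/
def T_CCX : Prop := ∀ (k : Type) [Field k] [IsAlgClosed k] [CharZero k]
  (W : ℤ → Submodule k (Pol k 2)) (H : Pol k 2) (y : Fin 2 ⊕ Fin 2 → Pol k 2) (w : Fin 2 → ℤ),
  Hy W H y w → ∃ K : Subalgebra k (Pol k 2), CC W K

/-- the weights of `K` generate `ℤ` -/
def T_WTK : Prop := ∀ (k : Type) [Field k] [IsAlgClosed k] [CharZero k]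
  (W : ℤ → Submodule k (Pol k 2)) (H : Pol k 2) (y : Fin 2 ⊕ Fin 2 → Pol k 2) (w : Fin 2 → ℤ)
  (K : Subalgebra k (Pol k 2)), Hy W H y w → CC W K →
  ∀ r : ℤ, (∀ (n : ℤ) (f : Pol k 2), f ∈ K → f ∈ W n → f ≠ 0 → r ∣ n) → IsUnit r

/-! ### Charts -/

/-- a slice of `{g, ·}` modulo `g` commuting with `f` -/
def T_CHZ : Prop := ∀ (k : Type) [Field k] [IsAlgClosed k] [CharZero k]
  (W : ℤ → Submodule k (Pol k 2)) (H : Pol k 2) (y : Fin 2 ⊕ Fin 2 → Pol k 2) (w : Fin 2 → ℤ)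
  (g f : Pol k 2) (α β : ℤ), Hy W H y w → Gp W g f α β →
  ∃ (z : Pol k 2) (n : ℤ), z ∈ W n ∧ g ∣ br f z ∧ ¬ g ∣ br g z ∧ g ∣ br g (br g z)

/-- elements killed by `{g, ·}` and `{f, ·}` modulo `g` -/
def T_CHU : Prop := ∀ (k : Type) [Field k] [IsAlgClosed k] [CharZero k]
  (W : ℤ → Submodule k (Pol k 2)) (H : Pol k 2) (y : Fin 2 ⊕ Fin 2 → Pol k 2) (w : Fin 2 → ℤ)
  (g f : Pol k 2) (α β : ℤ), Hy W H y w → Gp W g f α β →
  ∀ (n : ℤ) (U : Pol k 2), U ∈ W n → g ∣ br g U → g ∣ br f U → ¬ g ∣ U →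
    0 ≤ n ∧ ∃ c : k, c ≠ 0 ∧ g ∣ U ^ β.toNat - C c * f ^ n.toNat

/-- generation modulo `g` -/
def T_CHG : Prop := ∀ (k : Type) [Field k] [IsAlgClosed k] [CharZero k]
  (W : ℤ → Submodule k (Pol k 2)) (H : Pol k 2) (y : Fin 2 ⊕ Fin 2 → Pol k 2) (w : Fin 2 → ℤ)
  (g f z : Pol k 2) (α β r : ℤ), Hy W H y w → Gp W g f α β → z ∈ W r → g ∣ br f z →
  ¬ g ∣ br g z → g ∣ br g (br g z) → ∀ (n : ℤ) (F : Pol k 2), F ∈ W n →
  ∃ (N D : ℕ) (u : Fin D → Fin D → Pol k 2),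
    (∀ a b : Fin D, u a b ∈ W (n + N * (β + α + r) - (b : ℕ) * r) ∧ g ∣ br g (u a b) ∧
      g ∣ br f (u a b)) ∧
    g ∣ (f * br g z) ^ N * F - ∑ a, ∑ b, u a b * H ^ (a : ℕ) * z ^ (b : ℕ)

/-- existence of charts -/
def T_CHT : Prop := ∀ (k : Type) [Field k] [IsAlgClosed k] [CharZero k]
  (W : ℤ → Submodule k (Pol k 2)) (H : Pol k 2) (y : Fin 2 ⊕ Fin 2 → Pol k 2) (w : Fin 2 → ℤ)
  (g f : Pol k 2) (α β : ℤ), Hy W H y w → Gp W g f α β →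
  ∃ (L : Type) (_ : Field L) (_ : Algebra k L) (Θ : Pol k 2 →ₐ[k] L) (v : Fin 3 → L)
    (wr m : ℕ), Cht W H g f α β Θ v wr m

/-- elements killed modulo `g` are monomials in `ρ` -/
def T_CHR : Prop := ∀ (k : Type) [Field k] [IsAlgClosed k] [CharZero k]
  (W : ℤ → Submodule k (Pol k 2)) (H g f : Pol k 2) (α β : ℤ) (L : Type) [Field L] [Algebra k L]
  (Θ : Pol k 2 →ₐ[k] L) (v : Fin 3 → L) (wr m : ℕ), Cht W H g f α β Θ v wr m →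
  ∀ (n : ℤ) (U : Pol k 2), U ∈ W n → g ∣ br g U → g ∣ br f U → ¬ g ∣ U →
    ∃ (c : k) (j : ℤ), c ≠ 0 ∧ Θ U = algebraMap k L c * v 0 ^ j ∧ n = j * wr

/-! ### Primes of `C` -/

/-- homogeneous components of `K` modulo a prime are at most one-dimensional -/
def T_CLI : Prop := ∀ (k : Type) [Field k] [IsAlgClosed k] [CharZero k]
  (W : ℤ → Submodule k (Pol k 2)) (H : Pol k 2) (y : Fin 2 ⊕ Fin 2 → Pol k 2) (w : Fin 2 → ℤ)
  (K : Subalgebra k (Pol k 2)), Hy W H y w → CC W K →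
  ∀ (r n : ℤ) (h u v : Pol k 2), Prime h → h ∈ K → h ∈ W r → u ∈ K → v ∈ K → u ∈ W n →
    v ∈ W n → ¬ h ∣ u → ∃ c : k, h ∣ v - C c * u

/-- a homogeneous element of positive weight not divisible by a prime -/
def T_ND : Prop := ∀ (k : Type) [Field k] [IsAlgClosed k] [CharZero k]
  (W : ℤ → Submodule k (Pol k 2)) (K : Subalgebra k (Pol k 2)), PGr W → CC W K →
  ∀ (r : ℤ) (h : Pol k 2), Prime h → h ∈ K → h ∈ W r →
    ∃ (n : ℤ) (f : Pol k 2), Prime f ∧ f ∈ K ∧ f ∈ W n ∧ ¬ h ∣ f ∧ ¬ f ∣ h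

/-- numerical semigroups: number of gaps of a translate -/
def T_APE : Prop := ∀ (S : Set ℕ) (e ω : ℕ), 0 ∈ S → (∀ a ∈ S, ∀ b ∈ S, a + b ∈ S) →
  (∀ a ∈ S, e ∣ a) → (∃ M, ∀ n, M ≤ n → e ∣ n → n ∈ S) → ω ∈ S → 0 < ω → 0 < e →
  {n : ℕ | n ∈ S ∧ ¬ ∃ t ∈ S, t + ω = n}.Finite ∧
    {n : ℕ | n ∈ S ∧ ¬ ∃ t ∈ S, t + ω = n}.ncard * e = ω

/-- the number `l = e ω` -/
def T_ELL : Prop := ∀ (k : Type) [Field k] [IsAlgClosed k] [CharZero k]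
  (W : ℤ → Submodule k (Pol k 2)) (H : Pol k 2) (y : Fin 2 ⊕ Fin 2 → Pol k 2) (w : Fin 2 → ℤ)
  (K : Subalgebra k (Pol k 2)), Hy W H y w → CC W K → ∃ l : ℕ, 0 < l ∧
  ∀ (r : ℤ) (h : Pol k 2), Prime h → h ∈ K → h ∈ W r → ∃ e : ℕ, 0 < e ∧ e * r = l ∧
    IsCoprime (e : ℤ) r ∧ (∀ (n : ℤ) (u : Pol k 2), u ∈ K → u ∈ W n → ¬ h ∣ u → (e : ℤ) ∣ n) ∧
    ∃ M : ℤ, ∀ n : ℤ, M ≤ n → (e : ℤ) ∣ n → ∃ u ∈ K, u ∈ W n ∧ ¬ h ∣ u

/-- the primes of `K` -/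
def T_CSX : Prop := ∀ (k : Type) [Field k] [IsAlgClosed k] [CharZero k]
  (W : ℤ → Submodule k (Pol k 2)) (H : Pol k 2) (y : Fin 2 ⊕ Fin 2 → Pol k 2) (w : Fin 2 → ℤ)
  (K : Subalgebra k (Pol k 2)), Hy W H y w → CC W K →
  ∃ (n : ℕ) (g : Fin (n + 2) → Pol k 2) (e ω : Fin (n + 2) → ℕ) (l : ℕ), CS W K n g e ω l

/-! ### Slices -/

/-- surjectivity, all special primes inverted -/
def T_SUA : Prop := ∀ (k : Type) [Field k] [IsAlgClosed k] [CharZero k]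
  (W : ℤ → Submodule k (Pol k 2)) (H : Pol k 2) (y : Fin 2 ⊕ Fin 2 → Pol k 2) (w : Fin 2 → ℤ)
  (K : Subalgebra k (Pol k 2)) (n : ℕ) (g : Fin (n + 2) → Pol k 2) (e ω : Fin (n + 2) → ℕ)
  (l : ℕ), Hy W H y w → CS W K n g e ω l → Sur W K (∏ i, g i)

/-- surjectivity, only `g 0` inverted, if `m = 1` in the chart at `g 1` -/
def T_SUB : Prop := ∀ (k : Type) [Field k] [IsAlgClosed k] [CharZero k]
  (W : ℤ → Submodule k (Pol k 2)) (H : Pol k 2) (y : Fin 2 ⊕ Fin 2 → Pol k 2) (w : Fin 2 → ℤ)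
  (K : Subalgebra k (Pol k 2)) (g : Fin 2 → Pol k 2) (e ω : Fin 2 → ℕ) (l : ℕ) (L : Type)
  [Field L] [Algebra k L] (Θ : Pol k 2 →ₐ[k] L) (v : Fin 3 → L) (wr : ℕ), Hy W H y w →
  CS W K 0 g e ω l → Cht W H (g 1) (g 0) (ω 1) (ω 0) Θ v wr 1 → Sur W K (g 0)

/-- division of the slice by primes -/
def T_DVP : Prop := ∀ (k : Type) [Field k] [IsAlgClosed k] [CharZero k]
  (W : ℤ → Submodule k (Pol k 2)) (H : Pol k 2) (y : Fin 2 ⊕ Fin 2 → Pol k 2) (w : Fin 2 → ℤ)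
  (K : Subalgebra k (Pol k 2)) (n : ℕ) (g : Fin (n + 2) → Pol k 2) (e ω : Fin (n + 2) → ℕ)
  (l : ℕ) (D : Pol k 2) (d : ℤ), Hy W H y w → CS W K n g e ω l → D ∈ K → D ∈ W d →
  D ≠ 0 → g 0 ∣ D → (∀ i, i ≠ 0 → i ≠ 1 → g i ∣ D) → Sur W K D →
  ∃ (M : ℕ) (r : ℤ) (S : Pol k 2), S ∈ W r ∧ br (g 0) S = 0 ∧ br (g 1) S = D ^ M

/-- generation by `K`, `H` and the slice -/
def T_GN4 : Prop := ∀ (k : Type) [Field k] [IsAlgClosed k] [CharZero k]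
  (W : ℤ → Submodule k (Pol k 2)) (H : Pol k 2) (y : Fin 2 ⊕ Fin 2 → Pol k 2) (w : Fin 2 → ℤ)
  (K : Subalgebra k (Pol k 2)) (p q D S : Pol k 2) (α β r : ℤ) (M : ℕ), Hy W H y w → CC W K →
  Cp W p q α β → p ∈ K → q ∈ K → D ∈ K → p ∣ D → D ≠ 0 → S ∈ W r → br p S = 0 →
  br q S = D ^ M →
  ∀ F : Pol k 2, ∃ N : ℕ, D ^ N * F ∈ Algebra.adjoin k ((K : Set (Pol k 2)) ∪ {H, S})

/-! ### Point count -/

/-- finitely generated rings have finite residue fields -/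
def T_AGF : Prop := ∀ (R : Type) [CommRing R] [Nontrivial R] (S : Finset R),
  ∃ (F : Type) (_ : Field F) (_ : Finite F),
    Nonempty ((Subring.closure (S : Set R)) →+* F)

/-- counting points of disjoint cells -/
def T_AGL : Prop := ∀ (k : Type) [Field k] (σ : Type) [Fintype σ] (r : ℕ) (L : Fin r → Type)
  [∀ i, Field (L i)] [∀ i, Algebra k (L i)] (n t : Fin r → ℕ) (v : ∀ i, Fin (n i) → L i)
  (Φ : ∀ i, MvPolynomial σ k →ₐ[k] L i) (a : ∀ i, Fin (t i) → Fin (n i))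
  (c : ∀ i, Fin (t i) → k) (f : Fin r → MvPolynomial σ k),
  (∀ i, Cel (v i) (Φ i) (a i) (c i) (f i)) → (∀ i j, i < j → Φ j (f i) = 0) →
  ∃ (F : Type) (_ : Field F) (_ : Fintype F) (c' : ∀ i, Fin (t i) → F),
    ∑ i, Nat.card {x : Fin (n i) → F // ∀ s, x (a i s) ≠ c' i s} ≤
      Fintype.card F ^ Fintype.card σ

/-- the open cell -/
def T_UCL : Prop := ∀ (k : Type) [Field k] [IsAlgClosed k] [CharZero k]
  (W : ℤ → Submodule k (Pol k 2)) (H : Pol k 2) (y : Fin 2 ⊕ Fin 2 → Pol k 2) (w : Fin 2 → ℤ)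
  (K : Subalgebra k (Pol k 2)) (n : ℕ) (g : Fin (n + 2) → Pol k 2) (e ω : Fin (n + 2) → ℕ)
  (l M : ℕ) (r : ℤ) (S : Pol k 2), Hy W H y w → CS W K n g e ω l → S ∈ W r →
  br (g 0) S = 0 → br (g 1) S = (∏ i, g i) ^ M →
  ∃ (v : Fin 4 → FractionRing (Pol k 2)) (c : Fin (n + 2) → k),
    Cel v (IsScalarTower.toAlgHom k (Pol k 2) (FractionRing (Pol k 2)))
      (fun j => if j = 0 then 0 else 1) c (∏ i, g i)

/-- the cell of a chart -/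
def T_CCL : Prop := ∀ (k : Type) [Field k] [IsAlgClosed k] [CharZero k]
  (W : ℤ → Submodule k (Pol k 2)) (H g f : Pol k 2) (α β : ℤ) (L : Type) [Field L] [Algebra k L]
  (Θ : Pol k 2 →ₐ[k] L) (v : Fin 3 → L) (wr m : ℕ), PGr W → Cht W H g f α β Θ v wr m →
  ∀ (F : Pol k 2) (c : k) (j : ℕ), c ≠ 0 → Θ F = algebraMap k L c * v 0 ^ j →
    (∃ N : ℕ, f ∣ F ^ N) → Cel v Θ (fun _ : Fin 1 => 0) (fun _ : Fin 1 => (0 : k)) F

/-- the restrictions of the primes to the attracting plane have no common zero -/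
def T_AGC : Prop := ∀ (k : Type) [Field k] [IsAlgClosed k] [CharZero k]
  (W : ℤ → Submodule k (Pol k 2)) (H : Pol k 2) (y : Fin 2 ⊕ Fin 2 → Pol k 2) (w : Fin 2 → ℤ)
  (K : Subalgebra k (Pol k 2)) (n : ℕ) (g : Fin (n + 2) → Pol k 2) (e ω : Fin (n + 2) → ℕ)
  (l : ℕ) (φ φ' : Pol k 2 →ₐ[k] MvPolynomial (Fin 2) k), Hy W H y w → Xp W w φ →
  Xp (fun n => W (-n)) w φ' → CS W K n g e ω l →
  ∀ i j, i ≠ j → ∀ z : Fin 2 → k, z ≠ 0 → ¬ (eval z (φ (g i)) = 0 ∧ eval z (φ (g j)) = 0)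

/-- Jacobian inequality -/
def T_JAC : Prop := ∀ (k : Type) [Field k] [IsAlgClosed k] [CharZero k] (w : Fin 2 → ℤ)
  (γ : Fin 3 → MvPolynomial (Fin 2) k) (e ω : Fin 3 → ℕ) (l : ℕ) (c : Fin 3 → k),
  (∀ i, 0 < w i) → (∀ i, 0 < e i) → 0 < l → (∀ i, e i * ω i = l) → (∀ i, c i ≠ 0) →
  (∀ i, IsWeightedHomogeneous w (γ i) (ω i : ℤ)) → ∑ i, C (c i) * γ i ^ e i = 0 →
  (∀ i j, i ≠ j → ∀ z : Fin 2 → k, z ≠ 0 → ¬ (eval z (γ i) = 0 ∧ eval z (γ j) = 0)) →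
  (l : ℤ) + w 0 + w 1 ≤ ∑ i, (ω i : ℤ)

/-- arithmetic of the exponents -/
def T_CAR : Prop := ∀ (n : ℕ) (e ω : Fin (n + 2) → ℕ) (l : ℕ), (∀ i, 2 ≤ e i) →
  (∀ i, e i * ω i = l) → 0 < l → (∀ i j, i ≠ j → Nat.Coprime (e i) (e j)) →
  (∃ c : Fin (n + 2) → ℤ, ∑ i, c i * (ω i : ℤ) = 1) →
  (∀ i j t, i ≠ j → j ≠ t → i ≠ t → l + 2 ≤ ω i + ω j + ω t) → n = 0

/-- at most two special primes -/
def T_NO3 : Prop := ∀ (k : Type) [Field k] [IsAlgClosed k] [CharZero k]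
  (W : ℤ → Submodule k (Pol k 2)) (H : Pol k 2) (y : Fin 2 ⊕ Fin 2 → Pol k 2) (w : Fin 2 → ℤ)
  (K : Subalgebra k (Pol k 2)) (n : ℕ) (g : Fin (n + 2) → Pol k 2) (e ω : Fin (n + 2) → ℕ)
  (l : ℕ), Hy W H y w → CS W K n g e ω l → n = 0

end Pool.Agent.H19.SYA
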