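import Pool.Agent.H11.ST2.KRL
import Pool.Agent.H19.SYA.TA

/-!
Symplectic torus actions on affine four-space (MP_51eb24_ag): restriction to the attracting plane.
-/

set_option autoImplicit false
set_option linter.unusedSectionVars false

namespace Pool.Agent.H19.SYA.Xpl

open MvPolynomial Pool.Agent.H2.ST Pool.Agent.H15.TG Pool.Agent.H19.SYA

section

variable {k : Type} [Field k] {W : ℤ → Submodule k (Pol k 2)} {y : Fin 2 ⊕ Fin 2 → Pol k 2}
  {w : Fin 2 → ℤ}

/-- generators of the ideal of the attracting plane -/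
def G0 (W : ℤ → Submodule k (Pol k 2)) : Set (Pol k 2) :=
  {f | (∃ n : ℤ, n < 0 ∧ f ∈ W n) ∨ (f ∈ W 0 ∧ constantCoeff f = 0)}

/-- weighted homogeneous polynomials of negative weight vanish -/
theorem ez_neg' (hw : ∀ i, 0 < w i) {G : MvPolynomial (Fin 2) k} {n : ℤ} (hn : n < 0)
    (hG : IsWeightedHomogeneous w G n) : G = 0 := by
  ext d
  rw [coeff_zero]
  by_contra hcon
  have h1 := hG hcon
  rw [Finsupp.weight_apply, Finsupp.sum] at h1
  have h2 : 0 ≤ ∑ a ∈ d.support, d a • w a :=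
    Finset.sum_nonneg fun a _ => by
      rw [nsmul_eq_mul]
      exact mul_nonneg (Int.natCast_nonneg _) (hw a).le
  omega

/-- the ideal of the attracting plane -/
noncomputable def JJ (W : ℤ → Submodule k (Pol k 2)) : Ideal (Pol k 2) := Ideal.span (G0 W)

theorem neg_mem {n : ℤ} (hn : n < 0) {f : Pol k 2} (hf : f ∈ W n) : f ∈ JJ W :=
  Ideal.subset_span (Or.inl ⟨n, hn, hf⟩)

theorem zer_mem {f : Pol k 2} (hf : f ∈ W 0) (h0 : constantCoeff f = 0) : f ∈ JJ W :=
  Ideal.subset_span (Or.inr ⟨hf, h0⟩)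

/-- approximation by polynomials of the same weight -/
theorem appr (hSTB : T_STB) (hGEN : T_GEN) (hP : PGr W) (hA : Ada W y w) {n : ℤ} {f : Pol k 2}
    (hf : f ∈ W n) (N : ℕ) : ∃ P : Pol k 2, f - aeval y P ∈ (mo k 2) ^ N ∧
      ∀ α ∈ P.support, wtm w α = n := by
  obtain ⟨P, hP1⟩ := (hGEN k 2 ℤ W y w hA).2 N f
  have h3 := hSTB k 2 ℤ W hP N _ hP1 n
  obtain ⟨P', h4, h5⟩ := Pool.Agent.H11.ST2.cmp_aeval hP.toGr hA n P
  refine ⟨P', ?_, h5⟩
  rw [map_sub, Finsupp.sub_apply, h4, cmp_of_mem hP.toGr hf, Finsupp.single_eq_same] at h3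
  exact h3

/-- components of elements of the ideal -/
theorem cmp_JJ (h : Gr W) {f : Pol k 2} (hf : f ∈ JJ W) : ∀ n, cmp h f n ∈ JJ W := by
  classical
  refine Submodule.span_induction (p := fun f _ => ∀ n, cmp h f n ∈ JJ W) ?_ ?_ ?_ ?_ hf
  · intro f hf n
    have h1 : f ∈ JJ W := Ideal.subset_span hf
    obtain ⟨l, hl⟩ : ∃ l, f ∈ W l := by
      rcases hf with ⟨l, -, hl⟩ | ⟨hl, -⟩
      · exact ⟨l, hl⟩
      · exact ⟨0, hl⟩
    rw [cmp_of_mem h hl, Finsupp.single_apply]
    split_ifs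
    · exact h1
    · exact (JJ W).zero_mem
  · intro n
    rw [map_zero]; exact (JJ W).zero_mem
  · intro f g _ _ hf hg n
    rw [map_add, Finsupp.add_apply]
    exact (JJ W).add_mem (hf n) (hg n)
  · intro a f _ hf n
    have h1 : a • f = ∑ b ∈ (cmp h f).support, a * cmp h f b := by
      rw [← Finset.mul_sum, smul_eq_mul]
      congr 1
      exact (cmp_sum h f).symm
    rw [h1, map_sum, Finsupp.finsetSum_apply]
    refine (JJ W).sum_mem fun b _ => ?_
    have h2 := cmp_mul_of_mem h (cmp_mem h f b) a (n - b)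
    rw [sub_add_cancel] at h2
    rw [h2]
    exact (JJ W).mul_mem_left _ (hf b)

/-- the powers of the maximal ideal of the origin -/
theorem pow_le (hP : PGr W) (N : ℕ) : ∀ f ∈ (mo k 2) ^ N, ∀ n : ℤ, n < N →
    cmp hP.toGr f n ∈ JJ W := by
  classical
  have h := hP.toGr
  -- components of nonpositive weight of elements of the maximal ideal
  have hm : ∀ a ∈ mo k 2, ∀ l : ℤ, l < 1 → cmp h a l ∈ JJ W := by
    intro a ha l hl
    rcases lt_or_eq_of_le (show l ≤ 0 by omega) with h1 | h1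
    · exact neg_mem h1 (cmp_mem h a l)
    · refine zer_mem (h1 ▸ cmp_mem h a l) ?_
      have h2 : constantCoeff a = ∑ b ∈ (cmp h a).support, constantCoeff (cmp h a b) := by
        rw [← map_sum]
        congr 1
        exact (cmp_sum h a).symm
      have h3 : ∑ b ∈ (cmp h a).support, constantCoeff (cmp h a b) =
          constantCoeff (cmp h a l) := by
        refine Finset.sum_eq_single l (fun b _ hb => ?_) (fun hb => ?_)
        · exact hP.van b (by rw [← h1]; exact hb) _ (cmp_mem h a b)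
        · rw [Finsupp.notMem_support_iff.1 hb, map_zero]
      rw [← h3, ← h2]
      exact ha
  induction N with
  | zero =>
    intro f _ n hn
    exact neg_mem (by simpa using hn) (cmp_mem h f n)
  | succ N ih =>
    intro f hf
    rw [pow_succ] at hf
    refine Submodule.mul_induction_on hf ?_ ?_
    · intro a ha b hb n hn
      -- cmp (a * b) n = sum over l of cmp a (n - l) * cmp b l
      have h1 : a * b = ∑ l ∈ (cmp h b).support, a * cmp h b l := by
        rw [← Finset.mul_sum]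
        congr 1
        exact (cmp_sum h b).symm
      rw [h1, map_sum, Finsupp.finsetSum_apply]
      refine (JJ W).sum_mem fun l _ => ?_
      have h2 := cmp_mul_of_mem h (cmp_mem h b l) a (n - l)
      rw [sub_add_cancel] at h2
      rw [h2]
      by_cases hl : l < 1
      · exact (JJ W).mul_mem_left _ (hm b hb l hl)
      · refine (JJ W).mul_mem_right _ (ih a ha (n - l) ?_)
        push_cast at hn
        omega
    · intro a b ha hb n hn
      rw [map_add, Finsupp.add_apply]
      exact (JJ W).add_mem (ha n hn) (hb n hn)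

/-- the coordinate projection -/
noncomputable def pr (k : Type) [Field k] : Pol k 2 →ₐ[k] MvPolynomial (Fin 2) k :=
  aeval (Sum.elim X (fun _ => 0))

theorem wtm_two (w : Fin 2 → ℤ) (α : Fin 2 ⊕ Fin 2 →₀ ℕ) :
    wtm w α = ((α (Sum.inl 0) : ℤ) - α (Sum.inr 0)) * w 0 +
      ((α (Sum.inl 1) : ℤ) - α (Sum.inr 1)) * w 1 := by
  unfold wtm
  rw [Fin.sum_univ_two]
  rfl

/-- polynomials in the coordinates, modulo the ideal -/
theorem red (hA : Ada W y w) (hw : ∀ i, 0 < w i) (P : Pol k 2) :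
    aeval y P - aeval (fun i : Fin 2 => y (Sum.inl i)) (pr k P) ∈ JJ W := by
  have h1 : ∀ s : Fin 2 ⊕ Fin 2, (aeval (fun i : Fin 2 => y (Sum.inl i)) (pr k (X s)) : Pol k 2) -
      aeval y (X s : Pol k 2) ∈ JJ W := by
    rintro (i | i)
    · simp [pr, (JJ W).zero_mem]
    · have : y (Sum.inr i) ∈ JJ W := neg_mem (by have := hw i; omega) (hA.hr i)
      simpa [pr] using this
  have h2 : (Ideal.Quotient.mkₐ k (JJ W)).comp (aeval y) =
      (Ideal.Quotient.mkₐ k (JJ W)).comp
        ((aeval (fun i : Fin 2 => y (Sum.inl i))).comp (pr k)) := by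
    refine MvPolynomial.algHom_ext fun s => ?_
    rw [AlgHom.comp_apply, AlgHom.comp_apply, AlgHom.comp_apply, Ideal.Quotient.mkₐ_eq_mk,
      Ideal.Quotient.eq, ← neg_mem_iff, neg_sub]
    exact h1 s
  have h3 := AlgHom.congr_fun h2 P
  rw [AlgHom.comp_apply, AlgHom.comp_apply, AlgHom.comp_apply, Ideal.Quotient.mkₐ_eq_mk,
      Ideal.Quotient.eq] at h3
  exact h3

/-- the projection of a polynomial of a given weight -/
theorem pr_wh {P : Pol k 2} {n : ℤ} (hP : ∀ α ∈ P.support, wtm w α = n) :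
    IsWeightedHomogeneous w (pr k P) n := by
  classical
  rw [P.as_sum, map_sum]
  rw [← mem_weightedHomogeneousSubmodule]
  refine Submodule.sum_mem _ fun α hα => ?_
  rw [mem_weightedHomogeneousSubmodule]
  unfold pr
  rw [aeval_monomial, Finsupp.prod_fintype _ _ (fun i => pow_zero _), Fintype.prod_sum_type,
    Fin.prod_univ_two, Fin.prod_univ_two]
  simp only [Sum.elim_inl, Sum.elim_inr]
  have h1 := hP α hα
  rw [wtm_two] at h1
  by_cases h0 : α (Sum.inr 0) = 0 ∧ α (Sum.inr 1) = 0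
  · rw [h0.1, h0.2, pow_zero, mul_one, mul_one]
    rw [h0.1, h0.2] at h1
    have h2 : IsWeightedHomogeneous w ((X 0 : MvPolynomial (Fin 2) k) ^ α (Sum.inl 0) *
        X 1 ^ α (Sum.inl 1)) (α (Sum.inl 0) • w 0 + α (Sum.inl 1) • w 1) :=
      ((isWeightedHomogeneous_X k w 0).pow _).mul ((isWeightedHomogeneous_X k w 1).pow _)
    have h3 : IsWeightedHomogeneous w (algebraMap k (MvPolynomial (Fin 2) k) (coeff α P) *
        ((X 0 : MvPolynomial (Fin 2) k) ^ α (Sum.inl 0) * X 1 ^ α (Sum.inl 1)))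
        (0 + (α (Sum.inl 0) • w 0 + α (Sum.inl 1) • w 1)) :=
      (isWeightedHomogeneous_C w _).mul h2
    have h4 : (0 + (α (Sum.inl 0) • w 0 + α (Sum.inl 1) • w 1)) = n := by
      rw [← h1, nsmul_eq_mul, nsmul_eq_mul]; push_cast; ring
    rw [← h4]
    exact h3
  · have : ((0 : MvPolynomial (Fin 2) k) ^ α (Sum.inr 0) * 0 ^ α (Sum.inr 1)) = 0 := by
      by_cases h2 : α (Sum.inr 0) = 0
      · rw [zero_pow (fun h => h0 ⟨h2, h⟩), mul_zero]
      · rw [zero_pow h2, zero_mul]
    rw [this, mul_zero, mul_zero]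
    exact isWeightedHomogeneous_zero k w n

/-- homogeneous elements, modulo the ideal -/
theorem cls (hSTB : T_STB) (hGEN : T_GEN) (hP : PGr W) (hA : Ada W y w) (hw : ∀ i, 0 < w i)
    {n : ℤ} {f : Pol k 2} (hf : f ∈ W n) : ∃ G : MvPolynomial (Fin 2) k,
      IsWeightedHomogeneous w G n ∧ f - aeval (fun i : Fin 2 => y (Sum.inl i)) G ∈ JJ W := by
  obtain ⟨P, hP1, hP2⟩ := appr hSTB hGEN hP hA hf (n.toNat + 1)
  refine ⟨pr k P, pr_wh hP2, ?_⟩
  have h1 : f - aeval y P ∈ JJ W := by
    have h2 := pow_le hP _ _ hP1 n (by push_cast; omega)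
    have h3 : f - aeval y P ∈ W n := by
      refine Submodule.sub_mem _ hf ?_
      rw [P.as_sum, map_sum]
      refine Submodule.sum_mem _ fun α hα => ?_
      rw [← hP2 α hα]
      exact Pool.Agent.H11.ST2.mon_mem hP.toGr hA α _
    rw [cmp_of_mem hP.toGr h3, Finsupp.single_eq_same] at h2
    exact h2
  have h4 := (JJ W).add_mem h1 (red hA hw P)
  rwa [sub_add_sub_cancel] at h4

/-- approximation of the elements of the ideal -/
theorem appr_JJ (hSTB : T_STB) (hGEN : T_GEN) (hP : PGr W) (hA : Ada W y w)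
    (hw : ∀ i, 0 < w i) (N : ℕ) {f : Pol k 2} (hf : f ∈ JJ W) :
    ∃ Q : Pol k 2, pr k Q = 0 ∧ f - aeval y Q ∈ (mo k 2) ^ N := by
  classical
  rcases Nat.eq_zero_or_pos N with hN | hN
  · exact ⟨0, map_zero _, by rw [hN, pow_zero, Ideal.one_eq_top]; trivial⟩
  refine Submodule.span_induction
    (p := fun f _ => ∃ Q : Pol k 2, pr k Q = 0 ∧ f - aeval y Q ∈ (mo k 2) ^ N) ?_ ?_ ?_ ?_ hf
  · rintro f (⟨n, hn, hf⟩ | ⟨hf, h0⟩)
    · obtain ⟨P, hP1, hP2⟩ := appr hSTB hGEN hP hA hf N
      exact ⟨P, ez_neg' hw hn (pr_wh hP2), hP1⟩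
    · obtain ⟨P, hP1, hP2⟩ := appr hSTB hGEN hP hA hf N
      refine ⟨P, ?_, hP1⟩
      have h1 : (constantCoeff : MvPolynomial (Fin 2) k →+* k).comp (pr k).toRingHom =
          (constantCoeff : Pol k 2 →+* k).comp (aeval y : Pol k 2 →ₐ[k] Pol k 2).toRingHom := by
        refine MvPolynomial.ringHom_ext (fun c => ?_) (fun s => ?_)
        · simp [pr]
        · have h2 := hA.hz s
          rcases s with i | i <;> simpa [pr] using h2.symm
      have h2 : constantCoeff (pr k P) = constantCoeff (aeval y P) := RingHom.congr_fun h1 P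
      have h3 : f - aeval y P ∈ mo k 2 := Ideal.pow_le_self hN.ne' hP1
      rw [RingHom.mem_ker, map_sub, h0, zero_sub, neg_eq_zero] at h3
      rw [h3] at h2
      ext β
      rw [coeff_zero]
      by_contra hcon
      have h4 := pr_wh (w := w) hP2 hcon
      have h5 : β = 0 := by
        rw [Finsupp.weight_apply, Finsupp.sum_fintype _ _ (by simp), Fin.sum_univ_two,
          nsmul_eq_mul, nsmul_eq_mul] at h4
        have h6 := mul_nonneg (Int.natCast_nonneg (β 0)) (hw 0).le
        have h7 := mul_nonneg (Int.natCast_nonneg (β 1)) (hw 1).le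
        have h8 : ((β 0 : ℕ) : ℤ) * w 0 = 0 := by omega
        have h9 : ((β 1 : ℕ) : ℤ) * w 1 = 0 := by omega
        ext i
        fin_cases i
        · have := (mul_eq_zero.1 h8).resolve_right (hw 0).ne'
          simpa using this
        · have := (mul_eq_zero.1 h9).resolve_right (hw 1).ne'
          simpa using this
      rw [h5] at hcon
      exact hcon h2
  · exact ⟨0, map_zero _, by rw [map_zero, sub_zero]; exact Ideal.zero_mem _⟩
  · rintro f g _ _ ⟨Q, hQ, hf⟩ ⟨R, hR, hg⟩
    refine ⟨Q + R, by rw [map_add, hQ, hR, add_zero], ?_⟩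
    rw [map_add, add_sub_add_comm]
    exact Ideal.add_mem _ hf hg
  · rintro a f _ ⟨Q, hQ, hf⟩
    obtain ⟨R, hR⟩ := (hGEN k 2 ℤ W y w hA).2 N a
    refine ⟨R * Q, by rw [map_mul, hQ, mul_zero], ?_⟩
    have h1 : a • f - aeval y (R * Q) = a * (f - aeval y Q) + aeval y Q * (a - aeval y R) := by
      rw [map_mul, smul_eq_mul]; ring
    rw [h1]
    exact Ideal.add_mem _ (Ideal.mul_mem_left _ _ hf) (Ideal.mul_mem_left _ _ hR)

/-- homogeneous components vanish -/
theorem hc_zero (hZLF : T_ZLF) (hP : PGr W) (hA : Ada W y w) {N : ℕ} {F : Pol k 2}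
    (hF : aeval y F ∈ (mo k 2) ^ N) : ∀ d < N, homogeneousComponent d F = 0 := by
  classical
  have hy : ∀ (d : ℕ) (E : Pol k 2), E.IsHomogeneous d → aeval y E ∈ (mo k 2) ^ d := by
    intro d E hE
    rw [E.as_sum, map_sum]
    refine Ideal.sum_mem _ fun α hα => ?_
    rw [aeval_monomial]
    refine Ideal.mul_mem_left _ _ ?_
    have h1 : α.degree = d := by
      have := hE (mem_support_iff.1 hα)
      rw [Finsupp.degree_eq_weight_one]; exact this
    rw [Finsupp.prod_fintype _ _ (fun i => pow_zero _), ← h1, Finsupp.degree_eq_sum,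
      ← Finset.prod_pow_eq_pow_sum]
    exact Ideal.prod_mem_prod fun s _ => Ideal.pow_mem_pow (by rw [RingHom.mem_ker]; exact hA.hz s) _
  intro d
  induction d using Nat.strong_induction_on with
  | _ d ih =>
    intro hd
    refine (hZLF k 2 ℤ W y w hP hA).1 d _ (homogeneousComponent_isHomogeneous d F) ?_
    have h1 : F = homogeneousComponent d F +
        ∑ i ∈ Finset.range (F.totalDegree + 1 + d + 1) with i ≠ d, homogeneousComponent i F := by
      have h2 : F = ∑ i ∈ Finset.range (F.totalDegree + 1 + d + 1), homogeneousComponent i F := by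
        conv_lhs => rw [← sum_homogeneousComponent F]
        refine Finset.sum_subset (fun i hi => ?_) fun i _ hi => ?_
        · rw [Finset.mem_range] at hi ⊢; omega
        · rw [Finset.mem_range, not_lt] at hi
          exact homogeneousComponent_eq_zero i F (by omega)
      conv_lhs => rw [h2]
      rw [← Finset.sum_filter_add_sum_filter_not _ (fun i => i = d)]
      congr 1
      rw [Finset.filter_eq', if_pos (by rw [Finset.mem_range]; omega), Finset.sum_singleton]
    have h3 : aeval y (homogeneousComponent d F) = aeval y F -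
        ∑ i ∈ Finset.range (F.totalDegree + 1 + d + 1) with i ≠ d,
          aeval y (homogeneousComponent i F) := by
      conv_rhs => rw [h1]
      rw [map_add, map_sum, ← h1]
      ring
    rw [h3]
    refine Ideal.sub_mem _ (Ideal.pow_le_pow_right (by omega) hF) (Ideal.sum_mem _ fun i hi => ?_)
    rw [Finset.mem_filter] at hi
    rcases lt_or_gt_of_ne hi.2 with h4 | h4
    · rw [ih i h4 (by omega), map_zero]; exact Ideal.zero_mem _
    · exact Ideal.pow_le_pow_right (by omega) (hy i _ (homogeneousComponent_isHomogeneous i F))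

/-- injectivity -/
theorem inj (hSTB : T_STB) (hGEN : T_GEN) (hZLF : T_ZLF) (hP : PGr W) (hA : Ada W y w)
    (hw : ∀ i, 0 < w i) {G : MvPolynomial (Fin 2) k}
    (hG : aeval (fun i : Fin 2 => y (Sum.inl i)) G ∈ JJ W) : G = 0 := by
  classical
  obtain ⟨Q, hQ, hQ2⟩ := appr_JJ hSTB hGEN hP hA hw (G.totalDegree + 1) hG
  have h1 : aeval (fun i : Fin 2 => y (Sum.inl i)) G = aeval y (rename Sum.inl G) := by
    rw [aeval_rename]; rfl
  have h2 : pr k (rename Sum.inl G) = G := by
    unfold pr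
    rw [aeval_rename]
    exact aeval_X_left_apply G
  rw [h1, ← map_sub] at hQ2
  have h3 := hc_zero hZLF hP hA hQ2
  have h4 : G = pr k (rename Sum.inl G - Q) := by rw [map_sub, h2, hQ, sub_zero]
  ext β
  rw [coeff_zero]
  by_contra hcon
  have h5 : β.degree ≤ G.totalDegree := by
    rw [Finsupp.degree_eq_sum]
    have := le_totalDegree (mem_support_iff.2 hcon)
    rwa [Finsupp.sum_fintype _ _ (fun _ => rfl)] at this
  apply hcon
  rw [h4, ← sum_homogeneousComponent (rename Sum.inl G - Q), map_sum, coeff_sum]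
  refine Finset.sum_eq_zero fun d _ => ?_
  by_cases hd : d < G.totalDegree + 1
  · rw [h3 d hd, map_zero, coeff_zero]
  · have h6 : (pr k (homogeneousComponent d (rename Sum.inl G - Q))).IsHomogeneous (1 * d) := by
      refine (homogeneousComponent_isHomogeneous d _).aeval _ ?_
      rintro (i | i)
      · exact isHomogeneous_X k i
      · exact isHomogeneous_zero _ _ _
    refine h6.coeff_eq_zero ?_
    omega

end

/-- restriction to the attracting plane -/
theorem pf_XPL (hSTB : T_STB) (hGEN : T_GEN) (hZLF : T_ZLF) : T_XPL := by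
  classical
  intro k _ _ W y w hP hA hw
  let ψ : MvPolynomial (Fin 2) k →ₐ[k] (Pol k 2 ⧸ JJ W) :=
    (Ideal.Quotient.mkₐ k (JJ W)).comp (aeval (fun i : Fin 2 => y (Sum.inl i)))
  have hψ : ∀ (f : Pol k 2) (G : MvPolynomial (Fin 2) k),
      f - aeval (fun i : Fin 2 => y (Sum.inl i)) G ∈ JJ W → Ideal.Quotient.mkₐ k (JJ W) f = ψ G := by
    intro f G h
    rw [AlgHom.comp_apply, Ideal.Quotient.mkₐ_eq_mk]
    exact Ideal.Quotient.eq.2 h
  have hbij : Function.Bijective ψ := by
    constructor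
    · rw [injective_iff_map_eq_zero]
      intro G hG
      rw [AlgHom.comp_apply, Ideal.Quotient.mkₐ_eq_mk, Ideal.Quotient.eq_zero_iff_mem] at hG
      exact inj hSTB hGEN hZLF hP hA hw hG
    · intro x
      obtain ⟨f, rfl⟩ := Ideal.Quotient.mkₐ_surjective k (JJ W) x
      choose G hG1 hG2 using fun n => cls hSTB hGEN hP hA hw (cmp_mem hP.toGr f n)
      refine ⟨∑ n ∈ (cmp hP.toGr f).support, G n, ?_⟩
      symm
      refine hψ _ _ ?_
      have h1 : f = ∑ n ∈ (cmp hP.toGr f).support, cmp hP.toGr f n := (cmp_sum hP.toGr f).symm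
      have h2 : f - aeval (fun i : Fin 2 => y (Sum.inl i)) (∑ n ∈ (cmp hP.toGr f).support, G n) =
          ∑ n ∈ (cmp hP.toGr f).support,
            (cmp hP.toGr f n - aeval (fun i : Fin 2 => y (Sum.inl i)) (G n)) := by
        rw [Finset.sum_sub_distrib, ← h1, map_sum]
      rw [h2]
      exact Ideal.sum_mem _ fun n _ => hG2 n
  let e : MvPolynomial (Fin 2) k ≃ₐ[k] (Pol k 2 ⧸ JJ W) := AlgEquiv.ofBijective ψ hbij
  let φ : Pol k 2 →ₐ[k] MvPolynomial (Fin 2) k :=
    (e.symm : (Pol k 2 ⧸ JJ W) →ₐ[k] MvPolynomial (Fin 2) k).comp (Ideal.Quotient.mkₐ k (JJ W))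
  have hφ : ∀ (f : Pol k 2) (G : MvPolynomial (Fin 2) k),
      f - aeval (fun i : Fin 2 => y (Sum.inl i)) G ∈ JJ W → φ f = G := by
    intro f G h
    change e.symm (Ideal.Quotient.mkₐ k (JJ W) f) = G
    rw [hψ f G h]
    exact e.symm_apply_apply G
  have h0 : ∀ f ∈ JJ W, φ f = 0 := by
    intro f hf
    refine hφ f 0 ?_
    rw [map_zero, sub_zero]; exact hf
  refine ⟨φ, ⟨?_, ?_, ?_, ?_⟩⟩
  · intro G
    exact ⟨aeval (fun i : Fin 2 => y (Sum.inl i)) G, hφ _ G (by rw [sub_self]; exact Ideal.zero_mem _)⟩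
  · intro n hn f hf
    exact h0 f (neg_mem hn hf)
  · intro f hf hc
    exact h0 f (zer_mem hf hc)
  · intro n f hf
    obtain ⟨G, hG1, hG2⟩ := cls hSTB hGEN hP hA hw hf
    rw [hφ f G hG2]
    exact hG1

end Pool.Agent.H19.SYA.Xpl
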