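import Pool.Agent.H15.TG.All
import Pool.Agent.H2.ST.All
import Pool.Agent.H91.SYA.AGC
import Pool.Agent.H60.SYA.AGF
import Pool.Agent.H35.SYA.AGL
import Pool.Agent.H59.SYA.AGP
import Pool.Agent.H15.SYA.APE
import Pool.Agent.H90.SYA.ARI
import Pool.Agent.H90.SYA.CAR
import Pool.Agent.H46.SYA.CCL
import Pool.Agent.H61.SYA.CCX
import Pool.Agent.H54.SYA.CHG
import Pool.Agent.H36.SYA.CHR
import Pool.Agent.H10.SYA.CHT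
import Pool.Agent.H81.SYA.CHU
import Pool.Agent.H60.SYA.CHZ
import Pool.Agent.H69.SYA.CLI
import Pool.Agent.H10.SYA.CSX
import Pool.Agent.H74.SYA.CUS
import Pool.Agent.H54.SYA.DVP
import Pool.Agent.H51.SYA.EEE
import Pool.Agent.H81.SYA.ELL
import Pool.Agent.H79.SYA.EXA
import Pool.Agent.H11.SYA.EXX
import Pool.Agent.H19.SYA.EZ
import Pool.Agent.H69.SYA.GN0
import Pool.Agent.H15.SYA.GN4
import Pool.Agent.H15.SYA.INE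
import Pool.Agent.H90.SYA.JAC
import Pool.Agent.H69.SYA.K1E
import Pool.Agent.H59.SYA.KPZ
import Pool.Agent.H59.SYA.LIO
import Pool.Agent.H13.SYA.MMP
import Pool.Agent.H41.SYA.ND
import Pool.Agent.H15.SYA.NGW
import Pool.Agent.H36.SYA.NO3
import Pool.Agent.H19.SYA.NOH
import Pool.Agent.H69.SYA.PAI
import Pool.Agent.H86.SYA.PCG
import Pool.Agent.H46.SYA.POT
import Pool.Agent.H48.SYA.PPE
import Pool.Agent.H19.SYA.PPM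
import Pool.Agent.H17.SYA.PPX
import Pool.Agent.H13.SYA.PRQ
import Pool.Agent.H54.SYA.PSN
import Pool.Agent.H13.SYA.RHO
import Pool.Agent.H60.SYA.SEP
import Pool.Agent.H59.SYA.SL0
import Pool.Agent.H79.SYA.SUA
import Pool.Agent.H41.SYA.SUB
import Pool.Agent.H59.SYA.SWP
import Pool.Agent.H79.SYA.SWQ
import Pool.Agent.H59.SYA.TPA
import Pool.Agent.H14.SYA.TPB
import Pool.Agent.H17.SYA.TR2
import Pool.Agent.H53.SYA.UCL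
import Pool.Agent.H36.SYA.VI
import Pool.Agent.H74.SYA.VIP
import Pool.Agent.H69.SYA.WTK
import Pool.Agent.H19.SYA.XPL
import Pool.Agent.H14.SYA.XPM
import Pool.Agent.H42.SYA.XPZ

/-!
Symplectic torus actions on affine four-space (MP_51eb24_ag): assembly of the rows of the board
`sya_modules`.
-/

set_option autoImplicit false

namespace Pool.Agent.H19.SYA.All

theorem a_AGF : Pool.Agent.H19.SYA.T_AGF := Pool.Agent.H60.SYA.pf_AGF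

theorem a_AGL : Pool.Agent.H19.SYA.T_AGL := Pool.Agent.H35.SYA.pf_AGL a_AGF

theorem a_GN0 : Pool.Agent.H19.SYA.T_GN0 := Pool.Agent.H69.SYA.pf_GN0

theorem a_GN4 : Pool.Agent.H19.SYA.T_GN4 := Pool.Agent.H15.SYA.pf_GN4 a_GN0

theorem a_UCL : Pool.Agent.H19.SYA.T_UCL := Pool.Agent.H53.SYA.pf_UCL Pool.Agent.H15.TG.All.a_AI1
  a_GN4

theorem a_CCL : Pool.Agent.H19.SYA.T_CCL := Pool.Agent.H46.SYA.pf_CCL

theorem a_CHZ : Pool.Agent.H19.SYA.T_CHZ := Pool.Agent.H60.SYA.pf_CHZ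

theorem a_CHU : Pool.Agent.H19.SYA.T_CHU := Pool.Agent.H81.SYA.pf_CHU a_CHZ
  Pool.Agent.H15.TG.All.a_AI1 Pool.Agent.H15.TG.All.a_AI2

theorem a_CHG : Pool.Agent.H19.SYA.T_CHG := Pool.Agent.H54.SYA.pf_CHG

theorem a_CHT : Pool.Agent.H19.SYA.T_CHT := Pool.Agent.H10.SYA.pf_CHT a_CHZ a_CHU a_CHG

theorem a_CHR : Pool.Agent.H19.SYA.T_CHR := Pool.Agent.H36.SYA.pf_CHR

theorem a_SUA : Pool.Agent.H19.SYA.T_SUA := Pool.Agent.H79.SYA.pf_SUA a_CHT a_CHR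

theorem a_SL0 : Pool.Agent.H19.SYA.T_SL0 := Pool.Agent.H59.SYA.SL0m.pf_SL0

theorem a_DVP : Pool.Agent.H19.SYA.T_DVP := Pool.Agent.H54.SYA.pf_DVP a_SL0
  Pool.Agent.H2.ST.All.a_FAC Pool.Agent.H15.TG.All.a_AI2 Pool.Agent.H15.TG.All.a_AI3

theorem a_XPZ : Pool.Agent.H19.SYA.T_XPZ := Pool.Agent.H42.SYA.pf_XPZ

theorem a_AGC : Pool.Agent.H19.SYA.T_AGC := Pool.Agent.H91.SYA.pf_AGC a_AGL a_UCL a_CCL a_SUA
  a_DVP a_XPZ a_CHT a_CHR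

theorem a_PAI : Pool.Agent.H19.SYA.T_PAI := Pool.Agent.H69.SYA.pf_PAI Pool.Agent.H15.TG.All.a_AI1

theorem a_AGP : Pool.Agent.H19.SYA.T_AGP := Pool.Agent.H59.SYA.pf_AGP a_AGL a_CCL a_PAI a_XPZ

theorem a_APE : Pool.Agent.H19.SYA.T_APE := Pool.Agent.H15.SYA.pf_APE

theorem a_ARI : Pool.Agent.H19.SYA.T_ARI := Pool.Agent.H90.SYA.pf_ARI

theorem a_CAR : Pool.Agent.H19.SYA.T_CAR := Pool.Agent.H90.SYA.pf_CAR

theorem a_TPA : Pool.Agent.H19.SYA.T_TPA := Pool.Agent.H59.SYA.TPAm.pf_TPA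
  Pool.Agent.H2.ST.All.a_TOP Pool.Agent.H2.ST.All.a_NIL

theorem a_TPB : Pool.Agent.H19.SYA.T_TPB := Pool.Agent.H14.SYA.pf_TPB a_TPA

theorem a_TR2 : Pool.Agent.H19.SYA.T_TR2 := Pool.Agent.H17.SYA.pf_TR2 Pool.Agent.H15.TG.All.a_AI1

theorem a_CCX : Pool.Agent.H19.SYA.T_CCX := Pool.Agent.H61.SYA.pf_CCX a_TPB a_SL0 a_TR2
  Pool.Agent.H2.ST.All.a_LFC Pool.Agent.H15.TG.All.a_EXT

theorem a_ND : Pool.Agent.H19.SYA.T_ND := Pool.Agent.H41.SYA.pf_ND Pool.Agent.H2.ST.All.a_FAC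

theorem a_CLI : Pool.Agent.H19.SYA.T_CLI := Pool.Agent.H69.SYA.pf_CLI a_ND a_CHT a_CHR

theorem a_WTK : Pool.Agent.H19.SYA.T_WTK := Pool.Agent.H69.SYA.pf_WTK a_SL0 a_GN0

theorem a_ELL : Pool.Agent.H19.SYA.T_ELL := Pool.Agent.H81.SYA.pf_ELL a_CLI a_WTK a_APE a_ND
  Pool.Agent.H2.ST.All.a_FAC

theorem a_CSX : Pool.Agent.H19.SYA.T_CSX := Pool.Agent.H10.SYA.pf_CSX a_ELL a_CLI a_ND a_WTK
  Pool.Agent.H2.ST.All.a_FAC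

theorem a_CUS : Pool.Agent.H19.SYA.T_CUS := Pool.Agent.H74.SYA.pf_CUS

theorem a_EEE : Pool.Agent.H19.SYA.T_EEE := Pool.Agent.H51.SYA.pf_EEE a_CHR

theorem a_EXA : Pool.Agent.H19.SYA.T_EXA := Pool.Agent.H79.SYA.pf_EXA a_CHR

theorem a_RHO : Pool.Agent.H19.SYA.T_RHO := Pool.Agent.H13.SYA.pf_RHO

theorem a_EXX : Pool.Agent.H19.SYA.T_EXX := Pool.Agent.H11.SYA.pf_EXX a_RHO a_EXA

theorem a_EZ : Pool.Agent.H19.SYA.T_EZ := Pool.Agent.H19.SYA.pf_EZ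

theorem a_VI : Pool.Agent.H19.SYA.T_VI := Pool.Agent.H36.SYA.pf_VI

theorem a_SEP : Pool.Agent.H19.SYA.T_SEP := Pool.Agent.H60.SYA.pf_SEP

theorem a_VIP : Pool.Agent.H19.SYA.T_VIP := Pool.Agent.H74.SYA.pf_VIP a_VI a_SEP

theorem a_NGW : Pool.Agent.H19.SYA.T_NGW := Pool.Agent.H15.SYA.pf_NGW

theorem a_INE : Pool.Agent.H19.SYA.T_INE := Pool.Agent.H15.SYA.pf_INE a_VIP a_PAI a_NGW

theorem a_JAC : Pool.Agent.H19.SYA.T_JAC := Pool.Agent.H90.SYA.pf_JAC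

theorem a_K1E : Pool.Agent.H19.SYA.T_K1E := Pool.Agent.H69.SYA.pf_K1E a_INE a_EXX a_ARI

theorem a_LIO : Pool.Agent.H19.SYA.T_LIO := Pool.Agent.H59.SYA.pf_LIO

theorem a_POT : Pool.Agent.H19.SYA.T_POT := Pool.Agent.H46.SYA.pf_POT a_PAI

theorem a_KPZ : Pool.Agent.H19.SYA.T_KPZ := Pool.Agent.H59.SYA.KPZm.pf_KPZ a_LIO a_POT

theorem a_SWQ : Pool.Agent.H19.SYA.T_SWQ := Pool.Agent.H79.SYA.pf_SWQ

theorem a_MMP : Pool.Agent.H19.SYA.T_MMP := Pool.Agent.H13.SYA.pf_MMP a_VIP a_EXX a_SWQ a_PAI a_NGW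

theorem a_XPL : Pool.Agent.H19.SYA.T_XPL := Pool.Agent.H19.SYA.Xpl.pf_XPL
  Pool.Agent.H2.ST.All.a_STB Pool.Agent.H2.ST.All.a_GEN Pool.Agent.H15.TG.All.a_ZLF

theorem a_XPM : Pool.Agent.H19.SYA.T_XPM := Pool.Agent.H14.SYA.pf_XPM a_XPL

theorem a_NO3 : Pool.Agent.H19.SYA.T_NO3 := Pool.Agent.H36.SYA.pf_NO3 a_AGC a_XPM a_JAC a_CAR

theorem a_PRQ : Pool.Agent.H19.SYA.T_PRQ := Pool.Agent.H13.SYA.pf_PRQ Pool.Agent.H15.TG.All.a_AI1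
  a_GN4

theorem a_SUB : Pool.Agent.H19.SYA.T_SUB := Pool.Agent.H41.SYA.pf_SUB a_CHT a_CHR

theorem a_SWP : Pool.Agent.H19.SYA.T_SWP := Pool.Agent.H59.SYA.pf_SWP

theorem a_PPX : Pool.Agent.H19.SYA.T_PPX := Pool.Agent.H17.SYA.pf_PPX Pool.Agent.H15.TG.All.a_AI1
  a_GN4

theorem a_PPE : Pool.Agent.H19.SYA.T_PPE := Pool.Agent.H48.SYA.pf_PPE a_CCX a_CSX a_NO3 a_SUA
  a_DVP a_PRQ a_CHT a_MMP a_SUB a_SWP a_PPX

theorem a_PSN : Pool.Agent.H19.SYA.T_PSN := Pool.Agent.H54.SYA.pf_PSN Pool.Agent.H2.ST.All.a_NIL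

theorem a_PCG : Pool.Agent.H19.SYA.T_PCG := Pool.Agent.H86.SYA.PCG.pf_PCG a_PSN

theorem a_PPM : Pool.Agent.H19.SYA.T_PPM := Pool.Agent.H19.SYA.pf_PPM a_PCG a_PSN a_CHT a_CHR

theorem a_NOH : Pool.Agent.H19.SYA.T_NOH := Pool.Agent.H19.SYA.pf_NOH a_XPM a_PPE a_PPM a_K1E
  a_EEE a_KPZ a_AGP a_EZ a_CUS

end Pool.Agent.H19.SYA.All
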