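import Pool.Agent.H15.TG.All
import Pool.Agent.H15.TG.Fin2
import Pool.Agent.H19.SYA.NOH

/-!
Symplectic torus actions on affine four-space (MP_51eb24_ag): reduction of gradings by `ℤ` to the
hypothetical grading `Hy`.
-/

set_option autoImplicit false
set_option linter.unusedSectionVars false

namespace Pool.Agent.H19.SYA

open MvPolynomial Pool.Agent.H2.ST Pool.Agent.H15.TG

/-- homogeneous symplectic coordinates -/
def Crd {k Γ : Type} [Field k] [AddCommGroup Γ] (W : Γ → Submodule k (Pol k 2)) : Prop :=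
  ∃ (Z : Fin 2 ⊕ Fin 2 → Pol k 2) (ω : Fin 2 → Γ), (∀ i, Z (Sum.inl i) ∈ W (ω i)) ∧
    (∀ i, Z (Sum.inr i) ∈ W (-ω i)) ∧
    (∀ i j, br (Z (Sum.inl i)) (Z (Sum.inr j)) = if i = j then 1 else 0) ∧
    (∀ i j, br (Z (Sum.inl i)) (Z (Sum.inl j)) = 0) ∧
    (∀ i j, br (Z (Sum.inr i)) (Z (Sum.inr j)) = 0) ∧
    (∀ f : Pol k 2, f ∈ Algebra.adjoin k (Set.range Z))

section

variable {k : Type} [Field k] [IsAlgClosed k] [CharZero k]

/-- an invariant Hamiltonian with locally nilpotent bracket gives homogeneous coordinates -/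
theorem ham_crd {W : ℤ → Submodule k (Pol k 2)} {y : Fin 2 ⊕ Fin 2 → Pol k 2} {w : Fin 2 → ℤ}
    (hP : PGr W) (hA : Ada W y w) (hw : ∀ i, w i ≠ 0) (f : Pol k 2) (hf0 : f ∈ W 0)
    (hfc : constantCoeff f = 0) (hfn : f ≠ 0) (hfl : LN f) : Crd W := by
  classical
  obtain ⟨ϖ, u, v, cc, hPs⟩ := Pool.Agent.H15.TG.All.a_PSE k 2 ℤ W y w (fun _ => False) hP hA
    (fun i hi => hi.elim)
  let Θ : ℤ →+ (Fin 1 → ℤ) := { toFun := fun n _ => n, map_zero' := rfl, map_add' := fun _ _ => rfl }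
  have hcard : 1 + 1 + Nat.card {i : Fin 2 // (fun _ : Fin 2 => False) i} = 2 := by
    have : IsEmpty {i : Fin 2 // (fun _ : Fin 2 => False) i} := ⟨fun x => x.2⟩
    rw [Nat.card_of_isEmpty]
  have hrel : ∑ i, (![w 1, -w 0] : Fin 2 → ℤ) i • w i = 0 := by
    rw [Fin.sum_univ_two]; simp; ring
  obtain ⟨H, hD⟩ := Pool.Agent.H15.TG.All.a_DTI k 2 1 ℤ W y w (fun _ => False) ϖ u v cc Θ
    ![w 1, -w 0] hPs hA one_pos hcard (fun i hi => hi.elim)
    (by
      intro l hl
      funext t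
      obtain rfl : t = 0 := Subsingleton.elim _ _
      have h1 := hl 0
      rw [Fin.sum_univ_one] at h1
      change l 0 * ((w 0 : ℤ) : k) = 0 at h1
      rcases mul_eq_zero.1 h1 with h2 | h2
      · exact h2
      · exact absurd (by exact_mod_cast h2) (hw 0))
    (by
      intro i _
      fin_cases i
      · simpa using hw 1
      · simpa using hw 0) hrel
  have hFd : Fd (co W Θ) (KS (fun _ : Fin 2 => False) u v) H f :=
    { toDat := hD
      fK := by
        unfold KS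
        rw [mem_Cen]
        rintro g ⟨i, hi, -⟩
        exact hi.elim
      f0 := by
        have := le_co W Θ 0 hf0
        rwa [map_zero] at this
      fc0 := hfc
      fn := hfn
      fl := fun g _ => hfl g }
  obtain ⟨z, ψ, hz1, hz2, hz3, hz4, hz5, hz6⟩ := main0 Pool.Agent.H15.TG.All.a_RPL
    Pool.Agent.H15.TG.All.a_MNA Pool.Agent.H15.TG.All.a_MNR Pool.Agent.H15.TG.All.a_PPC
    Pool.Agent.H15.TG.All.a_MNM Pool.Agent.H15.TG.All.a_ASL Pool.Agent.H15.TG.All.a_GNK k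
    2 1 _ _ H f hFd
  have hΘ3 : ∀ e : Fin 2 → ℤ, (∀ i, (fun _ : Fin 2 => False) i → e i = 0) →
      Θ (∑ i, e i • w i) = 0 → ∑ i, e i • w i = 0 := by
    intro e _ he
    exact congrFun he 0
  have hz8 : ∀ s, ∃ χ, z s ∈ W χ := by
    rintro (i | i)
    · exact Pool.Agent.H15.TG.All.a_HMG k 2 1 _ W w _ ϖ u v cc Θ hPs hΘ3 _ _ (hz1 i).1 (hz1 i).2
    · exact Pool.Agent.H15.TG.All.a_HMG k 2 1 _ W w _ ϖ u v cc Θ hPs hΘ3 _ _ (hz2 i).1 (hz2 i).2
  have hz7 : ∀ s, z s ∈ KS (fun _ : Fin 2 => False) u v := by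
    rintro (i | i)
    · exact (hz1 i).1
    · exact (hz2 i).1
  obtain ⟨Z, ω, h1, h2, h3, h4, h5, h6⟩ := Pool.Agent.H15.TG.All.a_FNC k 2 1 _ W w _ ϖ u v cc z
    hPs hcard hz7 hz8 hz3 hz4 hz5 hz6
  exact ⟨Z, ω, h1, h2, h3, h4, h5, h6⟩

/-- the same without the condition on the constant term -/
theorem ham_crd' {W : ℤ → Submodule k (Pol k 2)} {y : Fin 2 ⊕ Fin 2 → Pol k 2} {w : Fin 2 → ℤ}
    (hP : PGr W) (hA : Ada W y w) (hw : ∀ i, w i ≠ 0) (f : Pol k 2) (hf0 : f ∈ W 0)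
    (hfn : NC f) (hfl : LN f) : Crd W := by
  refine ham_crd hP hA hw (f - C (constantCoeff f)) ?_ ?_ ?_ ?_
  · exact Submodule.sub_mem _ hf0 (algebraMap_mem_gr hP.toGr _)
  · rw [map_sub, constantCoeff_C, sub_self]
  · intro h0
    exact hfn ⟨constantCoeff f, sub_eq_zero.1 h0⟩
  · intro x
    obtain ⟨N, hN⟩ := hfl x
    exact ⟨N, by rw [iter_sub_C]; exact hN⟩

/-- commuting semi-invariants of weights of opposite signs -/
theorem bad_crd {W : ℤ → Submodule k (Pol k 2)} {y : Fin 2 ⊕ Fin 2 → Pol k 2} {w : Fin 2 → ℤ}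
    (hP : PGr W) (hA : Ada W y w) (hw : ∀ i, w i ≠ 0) (n l : ℤ) (f g : Pol k 2) (hf : f ∈ W n)
    (hg : g ∈ W l) (hfc : NC f) (hgc : NC g) (hfl : LN f) (hgl : LN g) (hfg : br f g = 0)
    (hnl : ¬ 0 < n * l) : Crd W := by
  obtain ⟨i, j, hij, hs⟩ : ∃ i j : ℕ, (i ≠ 0 ∨ j ≠ 0) ∧ (i : ℤ) * n + j * l = 0 := by
    rcases eq_or_ne n 0 with h0 | h0
    · exact ⟨1, 0, Or.inl one_ne_zero, by rw [h0]; simp⟩
    · rcases lt_or_gt_of_ne h0 with h1 | h1
      · have h2 : 0 ≤ l := by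
          by_contra h3
          exact hnl (mul_pos_of_neg_of_neg h1 (not_le.1 h3))
        refine ⟨l.toNat, (-n).toNat, Or.inr (by omega), ?_⟩
        rw [Int.toNat_of_nonneg h2, Int.toNat_of_nonneg (by omega)]; ring
      · have h2 : l ≤ 0 := by
          by_contra h3
          exact hnl (mul_pos h1 (not_le.1 h3))
        refine ⟨(-l).toNat, n.toNat, Or.inr (by omega), ?_⟩
        rw [Int.toNat_of_nonneg (by omega), Int.toNat_of_nonneg h1.le]; ring
  refine ham_crd' hP hA hw (∏ t : Fin 2, (![f, g] : Fin 2 → Pol k 2) t ^ (![i, j] : Fin 2 → ℕ) t)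
    ?_ ?_ ?_
  · rw [Fin.prod_univ_two]
    have h1 := hP.toGr.mul _ _ _ _ (pow_mem_gr hP.toGr hf i) (pow_mem_gr hP.toGr hg j)
    have h2 : i • n + j • l = 0 := by
      rw [nsmul_eq_mul, nsmul_eq_mul]; exact hs
    rw [h2] at h1
    exact h1
  · refine prod_nonconst ![f, g] ![i, j] ?_ ?_
    · intro t
      fin_cases t
      · exact hfc
      · exact hgc
    · rcases hij with h | h
      · exact ⟨0, h⟩
      · exact ⟨1, h⟩
  · refine Pool.Agent.H15.TG.All.a_CCF k 2 2 ![f, g] ![i, j] ?_ ?_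
    · intro s t
      fin_cases s <;> fin_cases t
      · exact br_self f
      · exact hfg
      · change br g f = 0
        rw [br_anti, hfg, neg_zero]
      · exact br_self g
    · intro t
      fin_cases t
      · exact hfl
      · exact hgl

/-- normalization of the signs of the tangent weights -/
theorem ada_pos {W : ℤ → Submodule k (Pol k 2)} {y : Fin 2 ⊕ Fin 2 → Pol k 2} {w : Fin 2 → ℤ}
    (hA : Ada W y w) (hw : ∀ i, w i ≠ 0) :
    ∃ (y' : Fin 2 ⊕ Fin 2 → Pol k 2) (w' : Fin 2 → ℤ), Ada W y' w' ∧ ∀ i, 0 < w' i := by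
  classical
  refine ⟨Sum.elim (fun i => if 0 < w i then y (Sum.inl i) else y (Sum.inr i))
    (fun i => if 0 < w i then y (Sum.inr i) else -y (Sum.inl i)),
    fun i => if 0 < w i then w i else -w i, ⟨?_, ?_, ?_, ?_, ?_, ?_⟩, ?_⟩
  · intro i
    rw [Sum.elim_inl]
    split_ifs with h
    · exact hA.hl i
    · exact hA.hr i
  · intro i
    rw [Sum.elim_inr]
    split_ifs with h
    · exact hA.hr i
    · rw [neg_neg]; exact Submodule.neg_mem _ (hA.hl i)
  · rintro (i | i)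
    · rw [Sum.elim_inl]
      split_ifs <;> exact hA.hz _
    · rw [Sum.elim_inr]
      split_ifs
      · exact hA.hz _
      · rw [map_neg, hA.hz, neg_zero]
  · intro i j
    rw [Sum.elim_inl, Sum.elim_inr]
    by_cases hi : 0 < w i <;> by_cases hj : 0 < w j
    · rw [if_pos hi, if_pos hj]; exact hA.lr i j
    · rw [if_pos hi, if_neg hj, br_neg, map_neg, hA.ll, neg_zero, if_neg]
      rintro rfl; exact hj hi
    · rw [if_neg hi, if_pos hj, hA.rr, if_neg]
      rintro rfl; exact hi hj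
    · rw [if_neg hi, if_neg hj, br_neg, br_anti, neg_neg, hA.lr]
      by_cases hij : i = j
      · rw [if_pos hij, if_pos hij.symm]
      · rw [if_neg hij, if_neg (Ne.symm hij)]
  · intro i j
    rw [Sum.elim_inl, Sum.elim_inl]
    by_cases hi : 0 < w i <;> by_cases hj : 0 < w j
    · rw [if_pos hi, if_pos hj]; exact hA.ll i j
    · rw [if_pos hi, if_neg hj, hA.lr, if_neg]
      rintro rfl; exact hj hi
    · rw [if_neg hi, if_pos hj, br_anti, map_neg, hA.lr, if_neg, neg_zero]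
      rintro rfl; exact hi hj
    · rw [if_neg hi, if_neg hj]; exact hA.rr i j
  · intro i j
    rw [Sum.elim_inr, Sum.elim_inr]
    by_cases hi : 0 < w i <;> by_cases hj : 0 < w j
    · rw [if_pos hi, if_pos hj]; exact hA.rr i j
    · rw [if_pos hi, if_neg hj, br_neg, br_anti, neg_neg, hA.lr, if_neg]
      rintro rfl; exact hj hi
    · rw [if_neg hi, if_pos hj, neg_br, map_neg, hA.lr, if_neg, neg_zero]
      rintro rfl; exact hi hj
    · rw [if_neg hi, if_neg hj, neg_br, br_neg, neg_neg]; exact hA.ll i j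
  · intro i
    beta_reduce
    have := hw i
    split_ifs with h
    · exact h
    · omega

end

end Pool.Agent.H19.SYA
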