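import Pool.Agent.H19.SYA.Core1

/-!
Symplectic torus actions on affine four-space (MP_51eb24_ag): rescaling of gradings by `ℤ`, and
the theorem for gradings with nonzero tangent weights.
-/

set_option autoImplicit false
set_option linter.unusedSectionVars false

namespace Pool.Agent.H19.SYA

open MvPolynomial Pool.Agent.H2.ST Pool.Agent.H15.TG

section

variable {k : Type} [Field k]

/-- transport of a grading along an injective homomorphism containing all occurring weights -/
theorem PGr_res {Γ Γ' : Type} [AddCommGroup Γ] [AddCommGroup Γ'] {m : ℕ} (ε : Γ' →+ Γ)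
    (hε : Function.Injective ε) {W : Γ → Submodule k (Pol k m)} (h : PGr W)
    (hr : ∀ a f, f ∈ W a → f ≠ 0 → ∃ b, ε b = a) : PGr (fun b => W (ε b)) where
  one := by
    beta_reduce
    rw [map_zero]; exact h.one
  mul := by
    intro a b f g hf hg
    beta_reduce
    rw [map_add]; exact h.mul _ _ _ _ hf hg
  dec := by
    classical
    intro f
    obtain ⟨c, hc, hs⟩ := h.dec f
    refine ⟨c.comapDomain ε hε.injOn, fun a => ?_, ?_⟩
    · rw [Finsupp.comapDomain_apply]; exact hc _
    · rw [← hs]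
      unfold Finsupp.sum
      rw [Finsupp.comapDomain_support]
      rw [← Finset.sum_preimage ε c.support hε.injOn (fun x => c x)]
      · rfl
      · intro x hx hx2
        by_contra hcon
        obtain ⟨b, hb⟩ := hr x (c x) (hc x) hcon
        exact hx2 ⟨b, hb⟩
  ind := by
    classical
    intro c hc hs
    have h1 := h.ind (c.embDomain ⟨ε, hε⟩) (fun a => by
      by_cases ha : ∃ b, ε b = a
      · obtain ⟨b, rfl⟩ := ha
        have := Finsupp.embDomain_apply_self (⟨ε, hε⟩ : Γ' ↪ Γ) c b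
        rw [show (c.embDomain ⟨ε, hε⟩) (ε b) = c b from this]
        exact hc b
      · rw [Finsupp.embDomain_of_notMem_range]
        · exact (W a).zero_mem
        · rintro ⟨b, hb⟩; exact ha ⟨b, hb⟩) (by
      rw [Finsupp.sum_embDomain]; exact hs)
    exact Finsupp.embDomain_eq_zero.1 h1
  pbr := by
    intro a b f g hf hg
    beta_reduce
    rw [map_add]; exact h.pbr _ _ _ _ hf hg
  van := by
    intro a ha f hf
    refine h.van (ε a) ?_ f hf
    intro h0
    exact ha (hε (by rw [h0, map_zero]))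

/-- homogeneous coordinates and transport -/
theorem Crd_res {Γ Γ' : Type} [AddCommGroup Γ] [AddCommGroup Γ'] (ε : Γ' →+ Γ)
    {W : Γ → Submodule k (Pol k 2)} (h : Crd (fun b => W (ε b))) : Crd W := by
  obtain ⟨Z, ω, h1, h2, h3⟩ := h
  refine ⟨Z, fun i => ε (ω i), h1, fun i => ?_, h3⟩
  have := h2 i
  beta_reduce at this
  rwa [map_neg] at this

theorem cc_y_ne {Γ : Type} [AddCommGroup Γ] {m : ℕ} {W : Γ → Submodule k (Pol k m)}
    {y : Fin m ⊕ Fin m → Pol k m} {w : Fin m → Γ} (hA : Ada W y w) (i : Fin m) :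
    y (Sum.inl i) ≠ 0 ∧ y (Sum.inr i) ≠ 0 := by
  have h1 := hA.lr i i
  rw [if_pos rfl] at h1
  constructor
  · intro h0
    rw [h0, zero_br, map_zero] at h1
    exact zero_ne_one h1
  · intro h0
    rw [h0, br_zero, map_zero] at h1
    exact zero_ne_one h1

end

section

variable {k : Type} [Field k] [IsAlgClosed k] [CharZero k]

/-- the theorem for effective gradings with positive tangent weights -/
theorem core_eff (hNOH : T_NOH) {W : ℤ → Submodule k (Pol k 2)} {y : Fin 2 ⊕ Fin 2 → Pol k 2}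
    {w : Fin 2 → ℤ} (hP : PGr W) (hA : Ada W y w) (hw : ∀ i, 0 < w i)
    (heff : ∀ r : ℤ, (∀ (n : ℤ) (f : Pol k 2), f ∈ W n → f ≠ 0 → r ∣ n) → IsUnit r) :
    Crd W := by
  by_contra hC
  obtain ⟨H0, hH0, hH1, hH2⟩ := Pool.Agent.H2.ST.All.a_EUL k 2 ℤ W (Int.castAddHom k) hP
  have hw' : ∀ i, w i ≠ 0 := fun i => (hw i).ne'
  refine hNOH k W (-H0) y w
    { toPGr := hP
      ad := hA
      wp := hw
      H0 := Submodule.neg_mem _ hH0
      Hc := by rw [map_neg, hH1, neg_zero]
      HE := ?_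
      eff := heff
      bad := ?_
      xp := ?_ }
  · intro n f hf
    rw [br_neg, br_anti, neg_neg, hH2 n f hf]
    rfl
  · intro n l f g hf hg hfc hgc hfl hgl hfg
    by_contra hnl
    exact hC (bad_crd hP hA hw' n l f g hf hg hfc hgc hfl hgl hfg hnl)
  · intro h
    by_contra hcon
    push Not at hcon
    -- no component of positive weight
    let ε : (Fin 1 → ℤ) ≃+ ℤ :=
      { toFun := fun e => -(e 0)
        invFun := fun n _ => -n
        left_inv := fun e => by
          funext t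
          obtain rfl : t = 0 := Subsingleton.elim _ _
          simp
        right_inv := fun n => by simp
        map_add' := fun a b => by simp [add_comm] }
    have h10 := Pool.Agent.H14.TG.PGr_equiv ε hP
    obtain ⟨r, f, χ, n, hFam⟩ := Pool.Agent.H15.TG.All.a_SMD k (fun a => W (ε a))
      (1 : Pol k 2 ≃ₐ[k] Pol k 2) h10 (fun _ _ => rfl) (fun e he => by
        rw [Pool.Agent.H4.TG.cmp_equiv ε hP]
        exact hcon (ε e) (by change 0 < -(e 0); omega))
    obtain ⟨g, hg0, hgn, hgl⟩ := fam_ham Pool.Agent.H15.TG.All.a_CCF h10.toGr hFam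
    refine hC (ham_crd' hP hA hw' g ?_ hgn hgl)
    have : ε 0 = 0 := map_zero ε
    beta_reduce at hg0
    rwa [this] at hg0

/-- the theorem for gradings by `ℤ` with nonzero tangent weights -/
theorem core_int (hNOH : T_NOH) {W : ℤ → Submodule k (Pol k 2)} {y : Fin 2 ⊕ Fin 2 → Pol k 2}
    {w : Fin 2 → ℤ} (hP : PGr W) (hA : Ada W y w) (hw : ∀ i, w i ≠ 0) : Crd W := by
  obtain ⟨y', w', hA', hw'⟩ := ada_pos hA hw
  -- the group of weights
  obtain ⟨r, hr⟩ := (IsPrincipalIdealRing.principal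
    (Ideal.span {n : ℤ | ∃ f ∈ W n, f ≠ 0})).principal
  rw [← Ideal.span] at hr
  have hdvd : ∀ (n : ℤ) (f : Pol k 2), f ∈ W n → f ≠ 0 → r ∣ n := by
    intro n f hf h0
    have h1 : n ∈ Ideal.span {n : ℤ | ∃ f ∈ W n, f ≠ 0} := Ideal.subset_span ⟨f, hf, h0⟩
    rw [hr] at h1
    exact Ideal.mem_span_singleton.1 h1
  have hr0 : r ≠ 0 := by
    rintro rfl
    have := hdvd _ _ (hA'.hl 0) (cc_y_ne hA' 0).1
    rw [zero_dvd_iff] at this
    exact (hw' 0).ne' this
  obtain ⟨ρ, hρ0, hρ⟩ : ∃ ρ : ℤ, 0 < ρ ∧ (∀ n : ℤ, r ∣ n ↔ ρ ∣ n) :=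
    ⟨|r|, abs_pos.2 hr0, fun n => (abs_dvd r n).symm⟩
  let ε : ℤ →+ ℤ := { toFun := fun n => ρ * n, map_zero' := mul_zero _, map_add' := mul_add _ }
  have hε : Function.Injective ε := by
    intro a b hab
    exact mul_left_cancel₀ hρ0.ne' hab
  have hP' : PGr (fun b => W (ε b)) := PGr_res ε hε hP (fun a f hf h0 => by
    obtain ⟨b, hb⟩ := (hρ a).1 (hdvd a f hf h0)
    exact ⟨b, hb.symm⟩)
  have hwd : ∀ i, ∃ v : ℤ, w' i = ρ * v := fun i =>
    (hρ _).1 (hdvd _ _ (hA'.hl i) (cc_y_ne hA' i).1)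
  choose v hv using hwd
  have hv0 : ∀ i, 0 < v i := by
    intro i
    have := hw' i
    rw [hv i] at this
    exact pos_of_mul_pos_right this hρ0.le
  refine Crd_res ε (core_eff hNOH (y := y') (w := v) hP' ⟨?_, ?_, hA'.hz, hA'.lr, hA'.ll, hA'.rr⟩
    hv0 ?_)
  · intro i
    have := hA'.hl i
    rw [hv i] at this
    exact this
  · intro i
    have := hA'.hr i
    rw [hv i, ← mul_neg] at this
    exact this
  · intro t ht
    have h1 : Ideal.span {n : ℤ | ∃ f ∈ W n, f ≠ 0} ≤ Ideal.span {ρ * t} := by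
      rw [Ideal.span_le]
      rintro n ⟨f, hf, h0⟩
      obtain ⟨b, hb⟩ := (hρ n).1 (hdvd n f hf h0)
      rw [SetLike.mem_coe, Ideal.mem_span_singleton, hb]
      have hf' : f ∈ W (ε b) := by
        change f ∈ W (ρ * b)
        rw [← hb]; exact hf
      exact mul_dvd_mul_left ρ (ht b f hf' h0)
    rw [hr, Ideal.span_singleton_le_span_singleton] at h1
    have h2 : ρ * t ∣ ρ := h1.trans ((hρ ρ).2 dvd_rfl)
    have h3 : t ∣ 1 := by
      have : ρ * t ∣ ρ * 1 := by rwa [mul_one]
      exact (mul_dvd_mul_iff_left hρ0.ne').1 this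
    exact isUnit_of_dvd_one h3

end

end Pool.Agent.H19.SYA
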