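import Pool.Agent.H19.SYA.Core2

/-!
Symplectic torus actions on affine four-space (MP_51eb24_ag): the theorem for gradings by
`Fin d → ℤ` and for torus actions.
-/

set_option autoImplicit false
set_option linter.unusedSectionVars false

namespace Pool.Agent.H19.SYA

open MvPolynomial Pool.Agent.H2.ST Pool.Agent.H15.TG

section

variable {k : Type} [Field k] [IsAlgClosed k] [CharZero k]

/-- gradings by `Fin 1 → ℤ` with a nonzero tangent weight -/
theorem crd_one (hNOH : T_NOH) {W : (Fin 1 → ℤ) → Submodule k (Pol k 2)}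
    {y : Fin 2 ⊕ Fin 2 → Pol k 2} {w : Fin 2 → Fin 1 → ℤ} (hP : PGr W) (hA : Ada W y w)
    (hw : ∃ i, w i ≠ 0) : Crd W := by
  have hz : ∀ χ : Fin 1 → ℤ, χ ≠ 0 ↔ χ 0 ≠ 0 := by
    intro χ
    constructor
    · intro h h0
      exact h (by funext t; obtain rfl : t = 0 := Subsingleton.elim _ _; exact h0)
    · rintro h rfl; exact h rfl
  by_cases hall : ∀ i, w i ≠ 0
  · let ε : ℤ →+ (Fin 1 → ℤ) :=
      { toFun := fun n _ => n, map_zero' := rfl, map_add' := fun _ _ => rfl }
    have hε : Function.Injective ε := fun a b hab => congrFun hab 0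
    have hεs : ∀ χ : Fin 1 → ℤ, ε (χ 0) = χ := by
      intro χ
      funext t
      obtain rfl : t = 0 := Subsingleton.elim _ _
      rfl
    have hP' : PGr (fun b => W (ε b)) := PGr_res ε hε hP (fun a f _ _ => ⟨a 0, hεs a⟩)
    refine Crd_res ε (core_int hNOH (y := y) (w := fun i => w i 0) hP'
      ⟨?_, ?_, hA.hz, hA.lr, hA.ll, hA.rr⟩ fun i => (hz _).1 (hall i))
    · intro i
      change _ ∈ W (ε (w i 0))
      rw [hεs]; exact hA.hl i
    · intro i
      change _ ∈ W (ε (-(w i 0)))
      rw [map_neg, hεs]; exact hA.hr i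
  · push Not at hall
    obtain ⟨i0, hi0⟩ := hall
    obtain ⟨i1, hi1⟩ := hw
    have hne : ∀ i, i ≠ i0 → i = i1 := by
      intro i hi
      have h1 : i1 ≠ i0 := by rintro rfl; exact hi1 hi0
      omega
    have h8 : ∀ i, w i ≠ 0 → ∃ π : (Fin 1 → ℤ) →+ ℤ, 0 < π (w i) ∧ ∀ j, j ≠ i → π (w j) = 0 := by
      intro i hi
      have hii : i ≠ i0 := by rintro rfl; exact hi hi0
      have hj : ∀ j, j ≠ i → w j = 0 := by
        intro j hji
        by_cases hj0 : j = i0
        · rw [hj0, hi0]
        · exact absurd ((hne j hj0).trans (hne i hii).symm) hji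
      rcases lt_or_gt_of_ne ((hz _).1 hi) with h | h
      · refine ⟨-(Pi.evalAddMonoidHom (fun _ : Fin 1 => ℤ) 0), ?_, fun j hji => ?_⟩
        · change 0 < -(w i 0); omega
        · rw [hj j hji, map_zero]
      · refine ⟨Pi.evalAddMonoidHom (fun _ : Fin 1 => ℤ) 0, ?_, fun j hji => ?_⟩
        · exact h
        · rw [hj j hji, map_zero]
    obtain ⟨π, u, v, cc, h11⟩ := Pool.Agent.H2.ST.All.a_SPL k 2 _ W y w hP hA h8
    obtain ⟨z, z1, z2, z3, z4, z5, z6⟩ := Pool.Agent.H2.ST.All.a_FNB k 2 1 W w π u v cc i0 h11 rfl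
      hi0 (fun i hi => by rw [hne i hi]; exact hi1)
    exact ⟨z, w, z1, z2, z3, z4, z5, z6⟩

/-- gradings by `Fin d → ℤ` -/
theorem crd_gen (hNOH : T_NOH) {d : ℕ} {W : (Fin d → ℤ) → Submodule k (Pol k 2)}
    {y : Fin 2 ⊕ Fin 2 → Pol k 2} {w : Fin 2 → Fin d → ℤ} (hP : PGr W) (hA : Ada W y w) :
    Crd W := by
  classical
  -- the weights are combinations of the tangent weights
  have hocc : ∀ (χ : Fin d → ℤ) (f : Pol k 2), f ∈ W χ → f ≠ 0 →
      ∃ e0 e1 : ℤ, χ = e0 • w 0 + e1 • w 1 := by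
    intro χ f hf h0
    obtain ⟨α, hα⟩ : ∃ α : Fin 2 ⊕ Fin 2 →₀ ℕ, wtm w α = χ := by
      by_contra hcon
      push Not at hcon
      exact h0 ((Pool.Agent.H2.ST.All.a_KRL k 2 _ W y w hP hA χ f hf).1 hcon)
    refine ⟨(α (Sum.inl 0) : ℤ) - (α (Sum.inr 0) : ℤ), (α (Sum.inl 1) : ℤ) - (α (Sum.inr 1) : ℤ), ?_⟩
    rw [← hα]
    unfold wtm
    rw [Fin.sum_univ_two]
  by_cases hdet : ∃ s t : Fin d, w 0 s * w 1 t - w 0 t * w 1 s ≠ 0
  · -- independent tangent weights
    obtain ⟨s, t, hst⟩ := hdet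
    let es : (Fin d → ℤ) →+ ℤ := Pi.evalAddMonoidHom (fun _ : Fin d => ℤ) s
    let et : (Fin d → ℤ) →+ ℤ := Pi.evalAddMonoidHom (fun _ : Fin d => ℤ) t
    have h8 : ∀ i, w i ≠ 0 → ∃ π : (Fin d → ℤ) →+ ℤ, 0 < π (w i) ∧ ∀ j, j ≠ i → π (w j) = 0 := by
      have key : ∀ (i : Fin 2) (π : (Fin d → ℤ) →+ ℤ), π (w i) ≠ 0 → (∀ j, j ≠ i → π (w j) = 0) →
          ∃ π : (Fin d → ℤ) →+ ℤ, 0 < π (w i) ∧ ∀ j, j ≠ i → π (w j) = 0 := by
        intro i π h1 h2
        rcases lt_or_gt_of_ne h1 with h | h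
        · exact ⟨-π, by rw [AddMonoidHom.neg_apply]; omega, fun j hj => by
            rw [AddMonoidHom.neg_apply, h2 j hj, neg_zero]⟩
        · exact ⟨π, h, h2⟩
      intro i _
      fin_cases i
      · refine key 0 (w 1 t • es - w 1 s • et) ?_ ?_
        · change w 1 t * w 0 s - w 1 s * w 0 t ≠ 0
          intro h; apply hst; linarith
        · intro j hj
          obtain rfl : j = 1 := by omega
          change w 1 t * w 1 s - w 1 s * w 1 t = 0
          ring
      · refine key 1 (w 0 s • et - w 0 t • es) ?_ ?_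
        · change w 0 s * w 1 t - w 0 t * w 1 s ≠ 0
          exact hst
        · intro j hj
          obtain rfl : j = 0 := by
            have : j ≠ 1 := hj
            omega
          change w 0 s * w 0 t - w 0 t * w 0 s = 0
          ring
    have hne : ∀ i, w i ≠ 0 := by
      intro i h0
      fin_cases i
      · have h0' : w 0 = 0 := h0
        apply hst; rw [h0']; simp
      · have h0' : w 1 = 0 := h0
        apply hst; rw [h0']; simp
    obtain ⟨π, u, v, cc, h11⟩ := Pool.Agent.H2.ST.All.a_SPL k 2 _ W y w hP hA h8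
    obtain ⟨z, z1, z2, z3, z4, z5, z6⟩ := Pool.Agent.H2.ST.All.a_FNA k 2 _ W w π u v cc h11 hne
    exact ⟨z, w, z1, z2, z3, z4, z5, z6⟩
  · push Not at hdet
    by_cases hzero : ∀ i, w i = 0
    · -- trivial grading
      have htop : ∀ f : Pol k 2, f ∈ W 0 := by
        intro f
        refine mem_of_cmp hP.toGr fun b hb => ?_
        by_contra hcon
        obtain ⟨e0, e1, he⟩ := hocc b _ (cmp_mem hP.toGr f b) hcon
        rw [hzero, hzero, smul_zero, smul_zero, add_zero] at he
        exact hb he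
      refine ⟨X, fun _ => 0, fun i => htop _, fun i => htop _, fun i j => ?_, fun i j => ?_,
        fun i j => ?_, fun f => ?_⟩
      · rw [br_inr, pderiv_X]
        simp only [Pi.single_apply]
        by_cases hij : i = j
        · rw [if_pos hij, if_pos (by rw [hij])]
        · rw [if_neg hij, if_neg]
          intro h; exact hij (Sum.inl_injective h)
      · rw [br_inl, pderiv_X_of_ne (by simp), neg_zero]
      · rw [br_inr, pderiv_X_of_ne (by simp)]
      · rw [MvPolynomial.adjoin_range_X]; exact Algebra.mem_top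
    · push Not at hzero
      obtain ⟨i, hi⟩ := hzero
      obtain ⟨t, ht⟩ : ∃ t, w i t ≠ 0 := by
        by_contra hcon
        push Not at hcon
        exact hi (funext hcon)
      let π : (Fin d → ℤ) →+ (Fin 1 → ℤ) :=
        { toFun := fun χ _ => χ t, map_zero' := rfl, map_add' := fun _ _ => rfl }
      -- injective on the group of weights
      have hinj : ∀ e0 e1 : ℤ, π (e0 • w 0 + e1 • w 1) = 0 → e0 • w 0 + e1 • w 1 = 0 := by
        intro e0 e1 h
        have h0 : e0 * w 0 t + e1 * w 1 t = 0 := congrFun h 0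
        have hmin : ∀ (j : Fin 2) (s : Fin d), w j s * w i t = w j t * w i s := by
          intro j s
          fin_cases j <;> fin_cases i
          · exact mul_comm _ _
          · have := hdet s t
            change w 0 s * w 1 t = w 0 t * w 1 s
            linarith
          · have := hdet s t
            change w 1 s * w 0 t = w 1 t * w 0 s
            linarith
          · exact mul_comm _ _
        funext s
        change e0 * w 0 s + e1 * w 1 s = 0
        have h1 : (e0 * w 0 s + e1 * w 1 s) * w i t = 0 := by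
          calc (e0 * w 0 s + e1 * w 1 s) * w i t
              = e0 * (w 0 s * w i t) + e1 * (w 1 s * w i t) := by ring
            _ = (e0 * w 0 t + e1 * w 1 t) * w i s := by rw [hmin 0 s, hmin 1 s]; ring
            _ = 0 := by rw [h0, zero_mul]
        exact (mul_eq_zero.1 h1).resolve_right ht
      have hP1 : PGr (co W π) := Pool.Agent.H2.ST.All.a_COA k 2 _ _ W π hP
      have hA1 : Ada (co W π) y (fun j => π (w j)) :=
        ⟨fun j => le_co W π _ (hA.hl j), fun j => by
          have := le_co W π _ (hA.hr j)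
          rwa [map_neg] at this, hA.hz, hA.lr, hA.ll, hA.rr⟩
      obtain ⟨Z, ω, h1, h2, h3, h4, h5, h6⟩ := crd_one hNOH hP1 hA1
        ⟨i, fun h => ht (congrFun h 0)⟩
      -- homogeneous elements of the coarse grading are homogeneous
      have hhom : ∀ (a : Fin 1 → ℤ) (g : Pol k 2), g ∈ co W π a → g ≠ 0 →
          ∃ χ, g ∈ W χ ∧ π χ = a := by
        intro a g hg hg0
        obtain ⟨χ0, hχ0, f0, hf0, hf0'⟩ : ∃ χ0, π χ0 = a ∧ ∃ f ∈ W χ0, f ≠ 0 := by
          by_contra hcon
          push Not at hcon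
          have : co W π a ≤ ⊥ := by
            unfold co
            refine iSup₂_le fun χ hχ f hf => ?_
            rw [Submodule.mem_bot]
            exact hcon χ hχ f hf
          exact hg0 ((Submodule.mem_bot k).1 (this hg))
        refine ⟨χ0, ?_, hχ0⟩
        have hle : co W π a ≤ W χ0 := by
          unfold co
          refine iSup₂_le fun χ hχ f hf => ?_
          by_cases hff : f = 0
          · rw [hff]; exact (W χ0).zero_mem
          · obtain ⟨e0, e1, he⟩ := hocc χ f hf hff
            obtain ⟨e0', e1', he'⟩ := hocc χ0 f0 hf0 hf0'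
            have h9 : χ - χ0 = (e0 - e0') • w 0 + (e1 - e1') • w 1 := by
              rw [he, he', sub_smul, sub_smul]; abel
            have h10 : (e0 - e0') • w 0 + (e1 - e1') • w 1 = 0 := by
              apply hinj
              rw [← h9, map_sub, hχ, hχ0, sub_self]
            have h11 : χ = χ0 := by
              rw [← h9] at h10
              exact sub_eq_zero.1 h10
            rw [← h11]; exact hf
        exact hle hg
      have hZ : ∀ s, Z s ≠ 0 := by
        rintro (j | j) h0
        · have := h3 j j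
          rw [h0, zero_br, if_pos rfl] at this
          exact zero_ne_one this
        · have := h3 j j
          rw [h0, br_zero, if_pos rfl] at this
          exact zero_ne_one this
      have hl : ∀ j, ∃ χ, Z (Sum.inl j) ∈ W χ ∧ π χ = ω j := fun j => hhom _ _ (h1 j) (hZ _)
      choose ψ hψ hψ' using hl
      refine ⟨Z, ψ, hψ, fun j => ?_, h3, h4, h5, h6⟩
      obtain ⟨χ, hχ, hχ'⟩ := hhom _ _ (h2 j) (hZ (Sum.inr j))
      obtain ⟨e0, e1, he⟩ := hocc χ _ hχ (hZ _)
      obtain ⟨e0', e1', he'⟩ := hocc (ψ j) _ (hψ j) (hZ _)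
      have h9 : χ + ψ j = (e0 + e0') • w 0 + (e1 + e1') • w 1 := by
        rw [he, he', add_smul, add_smul]; abel
      have h10 : (e0 + e0') • w 0 + (e1 + e1') • w 1 = 0 := by
        apply hinj
        rw [← h9, map_add, hχ', hψ', neg_add_cancel]
      rw [← h9] at h10
      rw [← eq_neg_of_add_eq_zero_left h10]
      exact hχ

/-- torus actions on affine four-space by symplectic automorphisms -/
theorem main_dia (hNOH : T_NOH) {d : ℕ} (ρ : (Fin d → kˣ) →* (Pol k 2 ≃ₐ[k] Pol k 2))
    (hA : AlgAct ρ) (hs : ∀ t, Symp (ρ t)) : Dia ρ := by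
  have hG : Gr (Wt ρ) := Pool.Agent.H2.ST.All.a_GRD k _ d ρ hA
  obtain ⟨p, hp⟩ := Pool.Agent.H2.ST.All.a_FIX k _ d ρ hA
  obtain ⟨τ, ρ', y, w, h1, h3, h4, h5, h6, h7⟩ := local_form Pool.Agent.H2.ST.All.a_DAR
    Pool.Agent.H2.ST.All.a_TRA Pool.Agent.H2.ST.All.a_CJG ρ hG hs p hp
  refine Dia.of_conj h1 h4 ?_
  obtain ⟨Z, ω, z1, z2, z3, z4, z5, z6⟩ := crd_gen hNOH h5 h7
  obtain ⟨φ, hφ, h12⟩ := Pool.Agent.H2.ST.All.a_FIN k 2 d ρ' Z ω z1 z2 z3 z4 z5 z6
  exact ⟨φ, hφ, ω, h12⟩

end

end Pool.Agent.H19.SYA
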