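import Pool.Agent.H15.TG.Targets2

/-!
Symplectic torus actions on affine four-space (MP_51eb24_ag): definitions of the board
`sya_modules`. Conventions: `A = Pol k 2`, bracket `br`, gradings `W : ℤ → Submodule k A`.
-/

set_option autoImplicit false

namespace Pool.Agent.H19.SYA

open MvPolynomial Pool.Agent.H2.ST Pool.Agent.H15.TG

variable {k : Type} [Field k]

/-- not constant -/
def NC (f : Pol k 2) : Prop := ¬ ∃ c : k, f = C c

/-- the bracket with `f` is locally nilpotent -/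
def LN (f : Pol k 2) : Prop := ∀ x : Pol k 2, ∃ N : ℕ, (br f)^[N] x = 0

/-- the hypothetical non-diagonalizable action: a grading by `ℤ` with fixed point the origin,
tangent weights `w 0, w 1, -w 0, -w 1`, moment map `H` (with `{f, H} = n f` for `f ∈ W n`) -/
structure Hy (W : ℤ → Submodule k (Pol k 2)) (H : Pol k 2) (y : Fin 2 ⊕ Fin 2 → Pol k 2)
    (w : Fin 2 → ℤ) : Prop extends PGr W where
  ad : Ada W y w
  wp : ∀ i, 0 < w i
  H0 : H ∈ W 0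
  Hc : constantCoeff H = 0
  HE : ∀ (n : ℤ) (f : Pol k 2), f ∈ W n → br f H = (n : k) • f
  eff : ∀ r : ℤ, (∀ (n : ℤ) (f : Pol k 2), f ∈ W n → f ≠ 0 → r ∣ n) → IsUnit r
  bad : ∀ (n l : ℤ) (f g : Pol k 2), f ∈ W n → g ∈ W l → NC f → NC g → LN f → LN g →
    br f g = 0 → 0 < n * l
  xp : ∀ h : Gr W, ∃ n : ℤ, 0 < n ∧ cmp h (X (Sum.inl 0)) n ≠ 0

/-- restriction to the attracting plane: `A → k[u, v]`, weights `w 0, w 1` -/
structure Xp (W : ℤ → Submodule k (Pol k 2)) (w : Fin 2 → ℤ)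
    (φ : Pol k 2 →ₐ[k] MvPolynomial (Fin 2) k) : Prop where
  sur : Function.Surjective φ
  neg : ∀ n : ℤ, n < 0 → ∀ f ∈ W n, φ f = 0
  zer : ∀ f ∈ W 0, constantCoeff f = 0 → φ f = 0
  wh : ∀ n : ℤ, ∀ f ∈ W n, IsWeightedHomogeneous w (φ f) n

/-- two commuting homogeneous elements of positive weights, with locally nilpotent brackets,
algebraically independent -/
structure Cp (W : ℤ → Submodule k (Pol k 2)) (p q : Pol k 2) (α β : ℤ) : Prop where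
  hp : p ∈ W α
  hq : q ∈ W β
  pa : 0 < α
  pb : 0 < β
  lp : LN p
  lq : LN q
  pq : br p q = 0
  ai : AlgebraicIndependent k ![p, q]

/-- a local slice: `{p, s} = 0`, `{q, s} ≠ 0`, `{q, {q, s}} = 0` -/
structure Sl (W : ℤ → Submodule k (Pol k 2)) (p q s : Pol k 2) (n : ℤ) : Prop where
  hs : s ∈ W n
  ps : br p s = 0
  qs : br q s ≠ 0
  qq : br q (br q s) = 0

/-- maximal commutative subalgebra of elements with locally nilpotent brackets -/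
structure CC (W : ℤ → Submodule k (Pol k 2)) (K : Subalgebra k (Pol k 2)) : Prop where
  gr : ∀ (h : Gr W) (f : Pol k 2), f ∈ K → ∀ n, cmp h f n ∈ K
  fc : ∀ a b : Pol k 2, a * b ≠ 0 → a * b ∈ K → a ∈ K ∧ b ∈ K
  cm : ∀ f ∈ K, ∀ g ∈ K, br f g = 0
  ln : ∀ f ∈ K, LN f
  ps : ∀ (n : ℤ) (f : Pol k 2), f ∈ K → f ∈ W n → NC f → 0 < n
  mx : ∀ (p q : Pol k 2) (α β : ℤ), p ∈ K → q ∈ K → Cp W p q α β →
    ∀ x, br p x = 0 → br q x = 0 → x ∈ K
  ex : ∃ (p q : Pol k 2) (α β : ℤ), p ∈ K ∧ q ∈ K ∧ Cp W p q α β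
  tr : ∀ f : Fin 3 → Pol k 2, (∀ i, f i ∈ K) → ¬ AlgebraicIndependent k f

/-- a good pair: a prime `g` and an element `f` not divisible by `g`, commuting, homogeneous of
positive weights, with locally nilpotent brackets -/
structure Gp (W : ℤ → Submodule k (Pol k 2)) (g f : Pol k 2) (α β : ℤ) : Prop where
  pg : Prime g
  hg : g ∈ W α
  hf : f ∈ W β
  pa : 0 < α
  pb : 0 < β
  lg : LN g
  lf : LN f
  gf : br g f = 0
  nd : ¬ g ∣ f

/-- chart at the prime `g` with respect to `f`: modulo `g` and after inverting `f` the ring is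
`k[ρ, 1/ρ, H, ζ]`, `v = (ρ, H, ζ)`, `{g, ·} = ∂/∂ζ`, `{f, ·} = β f ∂/∂H`, `f = ρ ^ m`,
the weights of `ρ, H, ζ` are `w, 0, -α` -/
structure Cht (W : ℤ → Submodule k (Pol k 2)) (H g f : Pol k 2) (α β : ℤ) {L : Type} [Field L]
    [Algebra k L] (Θ : Pol k 2 →ₐ[k] L) (v : Fin 3 → L) (w m : ℕ) : Prop
    extends Gp W g f α β where
  wp : 0 < w
  mp : 0 < m
  wf : β = m * w
  ind : AlgebraicIndependent k v
  ker : ∀ F, Θ F = 0 ↔ g ∣ F
  tH : Θ H = v 1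
  tf : Θ f = v 0 ^ m
  img : ∀ (n : ℤ) (F : Pol k 2), F ∈ W n → ∃ (N : ℕ) (P : MvPolynomial (Fin 3) k),
    Θ F * v 0 ^ N = aeval v P ∧ IsWeightedHomogeneous ![(w : ℤ), 0, -α] P (n + N * w)
  dg : ∀ (F : Pol k 2) (N : ℕ) (P : MvPolynomial (Fin 3) k), Θ F * v 0 ^ N = aeval v P →
    Θ (br g F) * v 0 ^ N = aeval v (pderiv 2 P)
  df : ∀ (F : Pol k 2) (N : ℕ) (P : MvPolynomial (Fin 3) k), Θ F * v 0 ^ N = aeval v P →
    Θ (br f F) * v 0 ^ N = algebraMap k L (β : k) * v 0 ^ m * aeval v (pderiv 1 P)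
  inv : ∀ i : Fin 3, ∃ (N : ℕ) (n : ℤ) (F : Pol k 2), F ∈ W n ∧ v i * Θ f ^ N = Θ F

/-- primes of `K`: `g 0, …, g (n + 1)`, containing all special ones -/
structure CS (W : ℤ → Submodule k (Pol k 2)) (K : Subalgebra k (Pol k 2)) (n : ℕ)
    (g : Fin (n + 2) → Pol k 2) (e ω : Fin (n + 2) → ℕ) (l : ℕ) : Prop extends CC W K where
  pg : ∀ i, Prime (g i)
  gK : ∀ i, g i ∈ K
  gw : ∀ i, g i ∈ W (ω i)
  ep : ∀ i, 0 < e i
  eo : ∀ i, e i * ω i = l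
  lp : 0 < l
  na : ∀ i j, i ≠ j → ¬ g i ∣ g j
  cop : ∀ i j, i ≠ j → Nat.Coprime (e i) (e j)
  one : ∃ c : Fin (n + 2) → ℤ, ∑ i, c i * (ω i : ℤ) = 1
  pl : ∀ i j t, i ≠ j → ∃ a b : k, g t ^ e t = C a * g i ^ e i + C b * g j ^ e j
  ot : ∀ (r : ℤ) (h : Pol k 2), Prime h → h ∈ K → h ∈ W r → (∃ i, g i ∣ h) ∨
    ∃ a b : k, a ≠ 0 ∧ b ≠ 0 ∧ h = C a * g 0 ^ e 0 + C b * g 1 ^ e 1
  gen : ∀ f ∈ K, f ∈ Algebra.adjoin k (Set.range g)
  alt : n = 0 ∨ ∀ i, 2 ≤ e i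

/-- surjectivity onto the constants of the charts outside `D` -/
def Sur (W : ℤ → Submodule k (Pol k 2)) (K : Subalgebra k (Pol k 2)) (D : Pol k 2) : Prop :=
  ∀ (r n : ℤ) (h U : Pol k 2), Prime h → h ∈ K → h ∈ W r → ¬ h ∣ D → U ∈ W n →
    (∀ f ∈ K, h ∣ br f U) → ∃ N : ℕ, ∃ c ∈ K, h ∣ D ^ N * U - c

/-- a cell: coordinates `v` in a field `L`, `Φ : k[X] → L`, denominators powers of
`d = ∏ (v (a l) - c l)`, and `Φ f` a unit -/
structure Cel {σ L : Type} [Field L] [Algebra k L] {n t : ℕ} (v : Fin n → L)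
    (Φ : MvPolynomial σ k →ₐ[k] L) (a : Fin t → Fin n) (c : Fin t → k)
    (f : MvPolynomial σ k) : Prop where
  ind : AlgebraicIndependent k v
  pol : ∀ s : σ, ∃ (N : ℕ) (P : MvPolynomial (Fin n) k),
    Φ (X s) * (∏ l, (v (a l) - algebraMap k L (c l))) ^ N = aeval v P
  unt : ∃ (N : ℕ) (P : MvPolynomial (Fin n) k),
    Φ f * aeval v P = (∏ l, (v (a l) - algebraMap k L (c l))) ^ N
  inv : ∀ i : Fin n, ∃ (N : ℕ) (Q : MvPolynomial σ k), v i * Φ f ^ N = Φ Q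

/-- a pair `p, q` with a local slice `S`: `{p, S} = 0`, `{q, S} = p ^ k1 q ^ l1` -/
structure Pr (W : ℤ → Submodule k (Pol k 2)) (H p q S : Pol k 2) (α β : ℤ) (k1 l1 : ℕ) : Prop
    extends Gp W p q α β where
  hS : S ∈ W (k1 * α + l1 * β - β)
  pS : br p S = 0
  qS : br q S = p ^ k1 * q ^ l1
  gen : ∀ F : Pol k 2, ∃ (N : ℕ) (P : MvPolynomial (Fin 4) k),
    (p * q) ^ N * F = aeval ![p, q, H, S] P
  cop : IsCoprime α β

/-- the same with `{q, S} = p ^ k1`, `p` alone as denominator -/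
structure PP (W : ℤ → Submodule k (Pol k 2)) (H p q S : Pol k 2) (α β : ℤ) (k1 : ℕ) : Prop
    extends Pr W H p q S α β k1 0 where
  ge1 : ∀ F : Pol k 2, ∃ (N : ℕ) (P : MvPolynomial (Fin 4) k),
    p ^ N * F = aeval ![p, q, H, S] P

/-- a minimal pair, with its chart -/
structure Mi (W : ℤ → Submodule k (Pol k 2)) (H p q S : Pol k 2) (α β : ℤ) (k1 : ℕ)
    {L : Type} [Field L] [Algebra k L] (Θ : Pol k 2 →ₐ[k] L) (v : Fin 3 → L) (w m n : ℕ)
    (c : k) : Prop extends PP W H p q S α β k1 where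
  ch : Cht W H p q α β Θ v w m
  kp : 0 < k1
  c0 : c ≠ 0
  tS : Θ S = algebraMap k L c * v 0 ^ n
  wS : (n : ℤ) * w = k1 * α - β
  nm : ¬ m ∣ n
  lt : m < n

/-- the field of rational functions in `n` variables -/
abbrev RF (k : Type) [Field k] (n : ℕ) : Type := FractionRing (MvPolynomial (Fin n) k)

/-- the variables of `RF k n` -/
noncomputable def xx (k : Type) [Field k] {n : ℕ} (i : Fin n) : RF k n :=
  algebraMap (MvPolynomial (Fin n) k) (RF k n) (X i)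

/-- the expansion `X0^k1 X1^(m l1) (∑ c_K X0^(-wK) X1^(αK-m) + (X2 + κ)/(β X1^m) + X0 X3)` of `S` in
the coordinates `p = X0`, `q = X1^m`, `H = X2`, `X3` -/
noncomputable def ES (k : Type) [Field k] (α β : ℤ) (k1 l1 w m K1 : ℕ) (c : ℕ → k) (κ : k) :
    RF k 4 :=
  xx k 0 ^ k1 * xx k 1 ^ (m * l1) *
    (∑ K ∈ Finset.Icc 1 K1, algebraMap k (RF k 4) (c K) * xx k 0 ^ (-((w * K : ℕ) : ℤ)) *
        xx k 1 ^ (α * K - m) +
      (xx k 2 + algebraMap k (RF k 4) κ) / (algebraMap k (RF k 4) (β : k) * xx k 1 ^ m) +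
      xx k 0 * xx k 3)

/-- the expansion data of `S` along `p`: every relation `(p q)^N F = P(p, q, H, S)` becomes, after
the substitution `p, q, H, S ↦ X0, X1^m, X2, ES`, divisible by `X0^N`, and the quotient reduces
to `F` modulo `p` -/
structure Ex (W : ℤ → Submodule k (Pol k 2)) (H p q S : Pol k 2) (α β : ℤ) (k1 l1 : ℕ)
    {L : Type} [Field L] [Algebra k L] (Θ : Pol k 2 →ₐ[k] L) (v : Fin 3 → L) (w m : ℕ)
    (K1 : ℕ) (c : ℕ → k) (κ : k) (ζ : L) : Prop where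
  top : K1 = 0 ∨ c K1 ≠ 0
  pole : w * K1 ≤ k1
  ind : AlgebraicIndependent k ![v 0, v 1, ζ]
  val : ∀ (F : Pol k 2) (N : ℕ) (P : MvPolynomial (Fin 4) k),
    (p * q) ^ N * F = aeval ![p, q, H, S] P →
    ∃ (M : ℕ) (G : MvPolynomial (Fin 4) k),
      aeval ![xx k 0, xx k 1 ^ m, xx k 2, ES k α β k1 l1 w m K1 c κ] P * xx k 1 ^ M =
        xx k 0 ^ N * algebraMap _ (RF k 4) G ∧
      Θ F * v 0 ^ (M + m * N) = aeval ![0, v 0, v 1, ζ] G

end Pool.Agent.H19.SYA
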