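import Pool.Agent.H19.SYA.TA
import Pool.Agent.H19.SYA.TB

/-!
Symplectic torus actions on affine four-space (MP_51eb24_ag): minimal pairs.
-/

set_option autoImplicit false

namespace Pool.Agent.H19.SYA

open MvPolynomial Pool.Agent.H2.ST Pool.Agent.H15.TG

/-- minimal pairs -/
theorem pf_PPM (hPCG : T_PCG) (hPSN : T_PSN) (hCHT : T_CHT) (hCHR : T_CHR) : T_PPM := by
  classical
  intro k _ _ _ W H y wy hy hex
  obtain ⟨p, q0, S0, α, β0, k0, h0⟩ := hex
  -- minimal weight of `q`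
  have hex1 : ∃ b : ℕ, ∃ (q S : Pol k 2) (β : ℤ) (k1 : ℕ), PP W H p q S α β k1 ∧ β.toNat = b :=
    ⟨_, q0, S0, β0, k0, h0, rfl⟩
  obtain ⟨q1, S1, β, k2, h1, hβ⟩ := Nat.find_spec hex1
  have hmin1 : ∀ (q S : Pol k 2) (β' : ℤ) (k1 : ℕ), PP W H p q S α β' k1 → β ≤ β' := by
    intro q S β' k1 h
    have h2 := Nat.find_min' hex1 ⟨q, S, β', k1, h, rfl⟩
    rw [← hβ] at h2
    have h3 := h.pb
    have h4 := h1.pb
    omega
  -- minimal exponent
  have hex2 : ∃ b : ℕ, ∃ (q S : Pol k 2), PP W H p q S α β b := ⟨k2, q1, S1, h1⟩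
  obtain ⟨q, S, h⟩ := Nat.find_spec hex2
  have hmin2 : ∀ (q S : Pol k 2) (k1 : ℕ), PP W H p q S α β k1 → Nat.find hex2 ≤ k1 :=
    fun q S k1 h => Nat.find_min' hex2 ⟨q, S, h⟩
  generalize Nat.find hex2 = k1 at h hmin2
  obtain ⟨hS1, hS2, hS3⟩ := hPSN k W H y wy p q S α β k1 hy h
  have hkp : 0 < k1 := by
    rcases Nat.eq_zero_or_pos k1 with h2 | h2
    · rw [h2, Nat.cast_zero, zero_mul, zero_sub] at hS3
      have := h.pb
      omega
    · exact h2
  obtain ⟨hC1, hC2⟩ := hPCG k W H y wy p q S α β k1 hy h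
  have hpS : ¬ p ∣ S := by
    rintro ⟨S', hS'⟩
    have h2 := hmin2 _ _ _ (hC2 S' 0 0 hkp (by rw [hS', C_0, zero_mul, add_zero]) (Or.inl rfl))
    omega
  obtain ⟨L, iL, iA, Θ, v, w, m, hch⟩ := hCHT k W H y wy p q α β hy h.toGp
  have hSW : S ∈ W (k1 * α - β) := by
    have := h.hS
    rwa [Nat.cast_zero, zero_mul, add_zero] at this
  obtain ⟨c, j, hc, htS, hwj⟩ := hCHR k W H p q α β L Θ v w m hch _ S hSW
    (by rw [h.pS]; exact dvd_zero _)
    (by rw [h.qS, pow_zero, mul_one]; exact dvd_pow_self p hkp.ne') hpS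
  have hwp : (0 : ℤ) < w := by exact_mod_cast hch.wp
  have hj : 0 < j := by
    rw [hwj] at hS3
    exact pos_of_mul_pos_left hS3 hwp.le
  obtain ⟨n, rfl⟩ : ∃ n : ℕ, j = n := ⟨j.toNat, (Int.toNat_of_nonneg hj.le).symm⟩
  have htS' : Θ S = algebraMap k L c * v 0 ^ n := by
    rw [htS, zpow_natCast]
  have hnm : ¬ m ∣ n := by
    rintro ⟨t, rfl⟩
    have h2 : Θ (S - C c * q ^ t) = 0 := by
      rw [map_sub, map_mul, map_pow, htS', hch.tf, ← pow_mul]
      have : Θ (C c) = algebraMap k L c := by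
        rw [← MvPolynomial.algebraMap_eq]
        exact Θ.commutes c
      rw [this, sub_self]
    rw [hch.ker] at h2
    obtain ⟨S', hS'⟩ := h2
    have h3 := hmin2 _ _ _ (hC2 S' c t hkp (by rw [← hS']; ring) (Or.inr (by
      rw [hwj, hch.wf]; push_cast; ring)))
    omega
  have hlt : m < n := by
    by_contra hcon
    have hne : n ≠ m := by
      rintro rfl
      exact hnm dvd_rfl
    have hlt : n < m := by omega
    have h2 := hmin1 _ _ _ _ (hC1 hpS)
    rw [hwj, hch.wf] at h2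
    have h3 : (m : ℤ) ≤ n := le_of_mul_le_mul_right h2 hwp
    omega
  exact ⟨p, q, S, α, β, k1, L, iL, iA, Θ, v, w, m, n, c,
    { toPP := h
      ch := hch
      kp := hkp
      c0 := hc
      tS := htS'
      wS := hwj.symm
      nm := hnm
      lt := hlt }⟩

end Pool.Agent.H19.SYA
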